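import Pool.Agent.Lib.MP_ae0f86_nt.StmD

/-!
# MP_ae0f86_nt : the catalysis inequality, algebra
-/

universe w v u

namespace Pool.Agent.Lib.MP_ae0f86_nt

noncomputable section

section Catal

variable {K : Type} [Field K] {R : Type w} [CommRing R] [Algebra K R] {r : ℕ} {e : Fin r → R}

theorem dec_inj (hdec : Dec R r e) {i j : Fin r} (h : e i = e j) : i = j := by
  by_contra hne
  have h1 := hdec.orth i j hne
  rw [← h, hdec.idem] at h1
  exact hdec.ne i h1

theorem dec_zero (hdec : Dec R r e) {a : R} (h : ∀ i, e i * a = 0) : a = 0 := by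
  rw [← one_mul a, ← hdec.sum, Finset.sum_mul]
  exact Finset.sum_eq_zero fun i _ => h i

/-- An automorphism permutes the idempotents `e i`. -/
theorem dec_perm (hdec : Dec R r e) (τ : R ≃ₐ[K] R) (i : Fin r) : ∃ j, τ (e i) = e j := by
  set f := τ (e i) with hf
  have hff : f * f = f := by rw [hf, ← map_mul, hdec.idem]
  have hor : ∀ j, e j * f = 0 ∨ e j * f = e j := by
    intro j
    have h6 : e j * (f * (1 - f)) = 0 := by
      rw [mul_sub, mul_one, hff, sub_self, mul_zero]
    rcases hdec.dom j _ _ h6 with h | h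
    · exact Or.inl h
    · rw [mul_sub, mul_one, sub_eq_zero] at h
      exact Or.inr h.symm
  have hne : f ≠ 0 := by
    intro h
    have := congrArg τ.symm h
    rw [hf, AlgEquiv.symm_apply_apply, map_zero] at this
    exact hdec.ne i this
  obtain ⟨j, hj⟩ : ∃ j, e j * f ≠ 0 := by
    by_contra hcon
    push Not at hcon
    exact hne (dec_zero hdec hcon)
  have hj' : e j * f = e j := (hor j).resolve_left hj
  refine ⟨j, ?_⟩
  have huniq : ∀ k, k ≠ j → e k * f = 0 := by
    intro k hk
    by_contra hk0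
    have hk' : e k * f = e k := (hor k).resolve_left hk0
    have h1 : e i * (τ.symm (e j) * τ.symm (e k)) = 0 := by
      rw [← map_mul, hdec.orth j k (Ne.symm hk), map_zero, mul_zero]
    have h2 : ∀ l, e l * f = e l → e i * τ.symm (e l) ≠ 0 := by
      intro l hl h
      have h3 := congrArg τ h
      rw [map_mul, AlgEquiv.apply_symm_apply, map_zero, ← hf, mul_comm, hl] at h3
      exact hdec.ne l h3
    rcases hdec.dom i _ _ h1 with h | h
    · exact h2 j hj' h
    · exact h2 k hk' h
  have h3 : f = ∑ k, e k * f := by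
    rw [← Finset.sum_mul, hdec.sum, one_mul]
  rw [h3, Finset.sum_eq_single j (fun k _ hk => huniq k hk)
    (fun h => absurd (Finset.mem_univ j) h), hj']

/-- The dimension of the restriction of `V` to the components in `T`. -/
def dT (e : Fin r → R) (V : Submodule K R) (T : Finset (Fin r)) : ℕ :=
  Module.finrank K (V.map (LinearMap.mulLeft K (∑ i ∈ T, e i)))

theorem sum_mul_sum (hdec : Dec R r e) {T T' : Finset (Fin r)} (h : T ⊆ T') :
    (∑ i ∈ T, e i) * (∑ i ∈ T', e i) = ∑ i ∈ T, e i := by
  rw [Finset.sum_mul]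
  refine Finset.sum_congr rfl fun i hi => ?_
  rw [Finset.mul_sum, Finset.sum_eq_single i (fun j _ hj => hdec.orth i j (Ne.symm hj))
    (fun hh => absurd (h hi) hh), hdec.idem]

theorem dT_mono (hdec : Dec R r e) (V : Submodule K R) [Module.Finite K V]
    {T T' : Finset (Fin r)} (h : T ⊆ T') : dT e V T ≤ dT e V T' := by
  unfold dT
  have h1 : V.map (LinearMap.mulLeft K (∑ i ∈ T, e i)) =
      (V.map (LinearMap.mulLeft K (∑ i ∈ T', e i))).map (LinearMap.mulLeft K (∑ i ∈ T, e i)) := by
    rw [← Submodule.map_comp]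
    congr 1
    ext a
    simp only [LinearMap.mulLeft_apply, LinearMap.comp_apply]
    rw [← mul_assoc, sum_mul_sum hdec h]
  rw [h1]
  exact Submodule.finrank_map_le _ _

theorem dT_inv (V : Submodule K R) [Module.Finite K V]
    (σ : R ≃ₐ[K] R) (hσ : V.map σ.toLinearMap = V) (π : Fin r → Fin r)
    (hπ : Function.Injective π) (hσπ : ∀ i, σ (e i) = e (π i)) (T : Finset (Fin r)) :
    dT e V (T.map ⟨π, hπ⟩) = dT e V T := by
  unfold dT
  have h1 : V.map (LinearMap.mulLeft K (∑ i ∈ T.map ⟨π, hπ⟩, e i)) =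
      (V.map (LinearMap.mulLeft K (∑ i ∈ T, e i))).map σ.toLinearMap := by
    conv_lhs => rw [← hσ]
    rw [← Submodule.map_comp, ← Submodule.map_comp]
    congr 1
    ext a
    simp only [LinearMap.mulLeft_apply, LinearMap.comp_apply, AlgEquiv.toLinearMap_apply]
    rw [map_mul, map_sum, Finset.sum_map]
    congr 1
    refine Finset.sum_congr rfl fun i _ => ?_
    rw [hσπ]
    rfl
  rw [h1]
  exact LinearEquiv.finrank_map_eq σ.toLinearEquiv _

theorem dT_split (hdec : Dec R r e) (V : Submodule K R) [Module.Finite K V]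
    (T : Finset (Fin r)) : Module.finrank K V ≤ dT e V T + dT e V Tᶜ := by
  unfold dT
  have h1 : V ≤ V.map (LinearMap.mulLeft K (∑ i ∈ T, e i)) ⊔
      V.map (LinearMap.mulLeft K (∑ i ∈ Tᶜ, e i)) := by
    intro v hv
    have : v = (∑ i ∈ T, e i) * v + (∑ i ∈ Tᶜ, e i) * v := by
      rw [← add_mul, Finset.sum_add_sum_compl, hdec.sum, one_mul]
    rw [this]
    exact Submodule.add_mem_sup ⟨v, hv, rfl⟩ ⟨v, hv, rfl⟩
  exact (Submodule.finrank_mono h1).trans (Submodule.finrank_add_le_finrank_add_finrank _ _)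

/-- If `F` does not vanish on the components in `T` then `dim F V ≥ dim e_T V`. -/
theorem dT_le_mul (hdec : Dec R r e) (V : Submodule K R) [Module.Finite K V]
    (T : Finset (Fin r)) (F : R) (hF : ∀ i ∈ T, e i * F ≠ 0) :
    dT e V T ≤ Module.finrank K (V.map (LinearMap.mulLeft K F)) := by
  unfold dT
  set g := LinearMap.mulLeft K (∑ i ∈ T, e i) with hg
  set h := LinearMap.mulLeft K F with hh
  have hker : ∀ v, h v = 0 → g v = 0 := by
    intro v hv
    rw [hh, LinearMap.mulLeft_apply] at hv
    rw [hg, LinearMap.mulLeft_apply, Finset.sum_mul]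
    refine Finset.sum_eq_zero fun i hi => ?_
    have h1 : e i * (F * v) = 0 := by rw [hv, mul_zero]
    exact (hdec.dom i _ _ h1).resolve_left (hF i hi)
  have hr1 := LinearMap.finrank_range_add_finrank_ker (g.domRestrict V)
  have hr2 := LinearMap.finrank_range_add_finrank_ker (h.domRestrict V)
  rw [LinearMap.range_domRestrict] at hr1 hr2
  have hle : Module.finrank K (LinearMap.ker (h.domRestrict V)) ≤
      Module.finrank K (LinearMap.ker (g.domRestrict V)) := by
    refine Submodule.finrank_mono ?_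
    intro x hx
    rw [LinearMap.mem_ker] at hx ⊢
    exact hker _ hx
  omega

/-! ### blocks -/

/-- Automorphisms which preserve the subspaces `U` and `V`. -/
def IsInv (U V : Submodule K R) (τ : R ≃ₐ[K] R) : Prop :=
  U.map τ.toLinearMap = U ∧ V.map τ.toLinearMap = V

theorem map_trans_eq (U : Submodule K R) {σ τ : R ≃ₐ[K] R} (hσ : U.map σ.toLinearMap = U)
    (hτ : U.map τ.toLinearMap = U) : U.map (τ.trans σ).toLinearMap = U := by
  have h : (τ.trans σ).toLinearMap = σ.toLinearMap ∘ₗ τ.toLinearMap := by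
    ext a; rfl
  rw [h, Submodule.map_comp, hτ, hσ]

theorem map_symm_eq (U : Submodule K R) {σ : R ≃ₐ[K] R} (hσ : U.map σ.toLinearMap = U) :
    U.map σ.symm.toLinearMap = U := by
  conv_lhs => rw [← hσ]
  rw [← Submodule.map_comp]
  have h : σ.symm.toLinearMap ∘ₗ σ.toLinearMap = LinearMap.id := by
    ext a; simp
  rw [h, Submodule.map_id]

theorem IsInv.trans {U V : Submodule K R} {σ τ : R ≃ₐ[K] R} (hσ : IsInv U V σ)
    (hτ : IsInv U V τ) : IsInv U V (τ.trans σ) :=
  ⟨map_trans_eq U hσ.1 hτ.1, map_trans_eq V hσ.2 hτ.2⟩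

theorem IsInv.symm {U V : Submodule K R} {σ : R ≃ₐ[K] R} (hσ : IsInv U V σ) :
    IsInv U V σ.symm :=
  ⟨map_symm_eq U hσ.1, map_symm_eq V hσ.2⟩

theorem IsInv.mem {U V : Submodule K R} {σ : R ≃ₐ[K] R} (hσ : IsInv U V σ) {u : R}
    (hu : u ∈ U) : σ u ∈ U := by
  have : σ u ∈ U.map σ.toLinearMap := ⟨u, hu, rfl⟩
  rwa [hσ.1] at this

open Classical in
/-- The block of `c`: the components on which every translate of `f` vanishes which vanishes on
the component `c`. -/
def blk (e : Fin r → R) (U V : Submodule K R) (f : R) (c : Fin r) : Finset (Fin r) :=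
  Finset.univ.filter fun c' => ∀ τ : R ≃ₐ[K] R, IsInv U V τ → e c * τ f = 0 → e c' * τ f = 0

theorem mem_blk {U V : Submodule K R} {f : R} {c c' : Fin r} :
    c' ∈ blk e U V f c ↔
      ∀ τ : R ≃ₐ[K] R, IsInv U V τ → e c * τ f = 0 → e c' * τ f = 0 := by
  classical
  simp [blk]

theorem blk_self {U V : Submodule K R} {f : R} (c : Fin r) : c ∈ blk e U V f c :=
  mem_blk.2 fun _ _ h => h

theorem blk_sub {U V : Submodule K R} {f : R} {c c' : Fin r} (h : c' ∈ blk e U V f c) :
    blk e U V f c' ⊆ blk e U V f c := by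
  intro x hx
  rw [mem_blk] at h hx ⊢
  exact fun τ hτ h0 => hx τ hτ (h τ hτ h0)

/-- The permutation of the components given by an automorphism. -/
theorem exists_perm (hdec : Dec R r e) (σ : R ≃ₐ[K] R) :
    ∃ π : Fin r ↪ Fin r, ∀ i, σ (e i) = e (π i) := by
  choose π hπ using dec_perm hdec σ
  refine ⟨⟨π, fun i j h => ?_⟩, hπ⟩
  have h1 : σ (e i) = σ (e j) := by rw [hπ, hπ, h]
  exact dec_inj hdec (σ.injective h1)

theorem blk_map {U V : Submodule K R} {f : R} {σ : R ≃ₐ[K] R} (hσ : IsInv U V σ)
    {π : Fin r ↪ Fin r} (hπ : ∀ i, σ (e i) = e (π i)) (c : Fin r) :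
    (blk e U V f c).map π ⊆ blk e U V f (π c) := by
  intro x hx
  obtain ⟨c', hc', rfl⟩ := Finset.mem_map.1 hx
  rw [mem_blk] at hc' ⊢
  intro τ hτ h0
  have h1 : e c * (τ.trans σ.symm) f = 0 := by
    apply σ.injective
    rw [map_mul, map_zero, hπ]
    simpa using h0
  have h2 := hc' _ (hσ.symm.trans hτ) h1
  have h3 := congrArg σ h2
  rw [map_mul, map_zero, hπ] at h3
  simpa using h3

theorem blk_le (hdec : Dec R r e) {U V : Submodule K R} [Module.Finite K V] {f : R}
    (hinv : ∀ i j, ∃ τ : R ≃ₐ[K] R, τ (e i) = e j ∧ IsInv U V τ) (c c1 : Fin r) :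
    (blk e U V f c).card ≤ (blk e U V f c1).card ∧
      dT e V (blk e U V f c) ≤ dT e V (blk e U V f c1) := by
  obtain ⟨σ, h1, h2⟩ := hinv c c1
  obtain ⟨π, hπ⟩ := exists_perm hdec σ
  have h3 : π c = c1 := dec_inj hdec (by rw [← hπ, h1])
  have h4 := blk_map (f := f) h2 hπ c
  rw [h3] at h4
  constructor
  · rw [← Finset.card_map π]
    exact Finset.card_le_card h4
  · have h5 := dT_inv (e := e) V σ h2.2 π π.injective hπ (blk e U V f c)
    rw [← h5]
    exact dT_mono hdec V h4

theorem blk_eq (hdec : Dec R r e) {U V : Submodule K R} [Module.Finite K V] {f : R}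
    (hinv : ∀ i j, ∃ τ : R ≃ₐ[K] R, τ (e i) = e j ∧ IsInv U V τ) {c c' : Fin r}
    (h : c' ∈ blk e U V f c) : blk e U V f c' = blk e U V f c :=
  Finset.eq_of_subset_of_card_le (blk_sub h) (blk_le hdec hinv c c').1

/-- A generic element of a subspace `P` does not vanish on any component on which not all of `P`
vanishes. -/
theorem exists_generic [Infinite K] (P : Submodule K R) (T : Finset (Fin r))
    (h : ∀ c ∈ T, ∃ g ∈ P, e c * g ≠ 0) : ∃ F ∈ P, ∀ c ∈ T, e c * F ≠ 0 := by
  classical
  induction T using Finset.induction_on with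
  | empty => exact ⟨0, P.zero_mem, fun c hc => absurd hc (Finset.notMem_empty c)⟩
  | insert c T _ ih =>
    obtain ⟨F, hF, hFT⟩ := ih fun c' hc' => h c' (Finset.mem_insert_of_mem hc')
    obtain ⟨g, hg, hgc⟩ := h c (Finset.mem_insert_self c T)
    have hfin : ∀ c' ∈ insert c T, {a : K | e c' * (F + a • g) = 0}.Finite := by
      intro c' hc'
      refine Set.Subsingleton.finite ?_
      intro a ha b hb
      have ha' : e c' * (F + a • g) = 0 := ha
      have hb' : e c' * (F + b • g) = 0 := hb
      rw [mul_add, mul_smul_comm] at ha' hb'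
      have h1 : (a - b) • (e c' * g) = 0 := by
        rw [sub_smul]
        linear_combination (exp := 1) ha' - hb'
      rcases smul_eq_zero.1 h1 with h2 | h2
      · exact sub_eq_zero.1 h2
      · exfalso
        rw [h2, smul_zero, add_zero] at ha'
        rcases Finset.mem_insert.1 hc' with rfl | h3
        · exact hgc h2
        · exact hFT c' h3 ha'
    have hU : (⋃ c' ∈ insert c T, {a : K | e c' * (F + a • g) = 0}).Finite :=
      Set.Finite.biUnion (Finset.finite_toSet _) hfin
    obtain ⟨a, ha⟩ := hU.infinite_compl.nonempty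
    refine ⟨F + a • g, P.add_mem hF (P.smul_mem a hg), fun c' hc' h0 => ?_⟩
    apply ha
    simp only [Set.mem_iUnion]
    exact ⟨c', hc', h0⟩

/-- The key step: from one element `f` of `U` we get an element `F` of `U` with `dim F V` at
least half of `dim V`, which is `f` or vanishes on the component `i0`. -/
theorem catal_core [Infinite K] (hdec : Dec R r e) (U V : Submodule K R) [Module.Finite K V]
    (hinv : ∀ i j, ∃ τ : R ≃ₐ[K] R, τ (e i) = e j ∧ IsInv U V τ) (i0 : Fin r) (f : R)
    (hf : f ∈ U) (hf0 : f ≠ 0) :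
    ∃ F ∈ U, (F = f ∨ e i0 * F = 0) ∧
      Module.finrank K V ≤ 2 * Module.finrank K (V.map (LinearMap.mulLeft K F)) := by
  by_cases hS : ∀ i, e i * f ≠ 0
  · refine ⟨f, hf, Or.inl rfl, ?_⟩
    have h1 := dT_le_mul hdec V Finset.univ f fun i _ => hS i
    have h2 : dT e V Finset.univ = Module.finrank K V := by
      unfold dT
      rw [hdec.sum]
      have : LinearMap.mulLeft K (1 : R) = LinearMap.id := by
        ext a; simp
      rw [this, Submodule.map_id]
    omega
  · push Not at hS
    obtain ⟨c, hc⟩ := hS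
    obtain ⟨c2, hc2⟩ : ∃ c2, e c2 * f ≠ 0 := by
      by_contra hcon
      push Not at hcon
      exact hf0 (dec_zero hdec hcon)
    obtain ⟨σ, h1, h2⟩ := hinv c i0
    obtain ⟨c1, hc1⟩ := dec_perm hdec σ c2
    have hc1n : c1 ∉ blk e U V f i0 := by
      intro h
      rw [mem_blk] at h
      have h3 : e i0 * σ f = 0 := by rw [← h1, ← map_mul, hc, map_zero]
      have h4 := h σ h2 h3
      rw [← hc1, ← map_mul] at h4
      apply hc2
      apply σ.injective
      rw [h4, map_zero]
    have hsub : blk e U V f c1 ⊆ (blk e U V f i0)ᶜ := by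
      intro x hx
      rw [Finset.mem_compl]
      intro hx0
      have h3 := blk_eq hdec hinv hx
      have h4 := blk_eq hdec hinv hx0
      apply hc1n
      rw [← h4, h3]
      exact blk_self c1
    obtain ⟨F, hF, hFT⟩ := exists_generic (e := e) (U ⊓ LinearMap.ker (LinearMap.mulLeft K (e i0)))
      (blk e U V f i0)ᶜ (by
        intro x hx
        rw [Finset.mem_compl, mem_blk] at hx
        push Not at hx
        obtain ⟨τ, hτ, h3, h4⟩ := hx
        refine ⟨τ f, ⟨hτ.mem hf, ?_⟩, h4⟩
        rw [SetLike.mem_coe, LinearMap.mem_ker, LinearMap.mulLeft_apply]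
        exact h3)
    refine ⟨F, hF.1, Or.inr ?_, ?_⟩
    · have := hF.2
      rwa [SetLike.mem_coe, LinearMap.mem_ker, LinearMap.mulLeft_apply] at this
    · have h3 := dT_split hdec V (blk e U V f i0)
      have h4 := (blk_le hdec (f := f) hinv i0 c1).2
      have h5 := dT_mono hdec V hsub
      have h6 := dT_le_mul hdec V _ F hFT
      omega

/-- An element `F` of `U` which is killed by `ev` bounds the dimension of `ev(U V)`. -/
theorem ev_key (U V : Submodule K R) [Module.Finite K U] [Module.Finite K V]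
    (L : Type) [Field L] [Algebra K L] (ev : R →ₐ[K] L) (F : R) (hF : F ∈ U) (hF0 : ev F = 0) :
    Module.finrank K ((U * V).map ev.toLinearMap) +
      Module.finrank K (V.map (LinearMap.mulLeft K F)) ≤ Module.finrank K ↥(U * V) := by
  have hUV : Module.Finite K ↥(U * V) := Module.Finite.iff_fg.2
    (Submodule.FG.mul (Module.Finite.iff_fg.1 inferInstance) (Module.Finite.iff_fg.1 inferInstance))
  have h1 := LinearMap.finrank_range_add_finrank_ker (ev.toLinearMap.domRestrict (U * V))
  rw [LinearMap.range_domRestrict] at h1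
  rw [← h1]
  refine Nat.add_le_add_left ?_ _
  have h2 : V.map (LinearMap.mulLeft K F) ≤
      (LinearMap.ker (ev.toLinearMap.domRestrict (U * V))).map (U * V).subtype := by
    rintro _ ⟨v, hv, rfl⟩
    refine ⟨⟨F * v, Submodule.mul_mem_mul hF hv⟩, ?_, rfl⟩
    rw [SetLike.mem_coe, LinearMap.mem_ker]
    change ev (F * v) = 0
    rw [map_mul, hF0, zero_mul]
  refine (Submodule.finrank_mono h2).trans ?_
  exact Submodule.finrank_map_le _ _

/-- If `F` does not vanish on any component then `dim F V = dim V`. -/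
theorem full_mul (hdec : Dec R r e) (V : Submodule K R) [Module.Finite K V] (F : R)
    (hF : ∀ i, e i * F ≠ 0) :
    Module.finrank K V ≤ Module.finrank K (V.map (LinearMap.mulLeft K F)) := by
  have h2 := dT_le_mul hdec V Finset.univ F (fun i _ => hF i)
  have h3 : dT e V Finset.univ = Module.finrank K V := by
    unfold dT
    rw [hdec.sum]
    have : LinearMap.mulLeft K (1 : R) = LinearMap.id := by
      ext a; simp
    rw [this, Submodule.map_id]
  omega

/-- The catalysis inequality. -/
theorem catal [Infinite K] (hdec : Dec R r e) (hevcut : S_evcut.{w}) (U V : Submodule K R)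
    [Module.Finite K U] [Module.Finite K V]
    (hinv : ∀ i j, ∃ τ : R ≃ₐ[K] R, τ (e i) = e j ∧ IsInv U V τ)
    (L : Type) [Field L] [Algebra K L] (ev : R →ₐ[K] L) (f : R) (hf : f ∈ U) (hf0 : f ≠ 0)
    (hev : ev f = 0) :
    2 * Module.finrank K ((U * V).map ev.toLinearMap) + Module.finrank K V ≤
        2 * Module.finrank K ↥(U * V) ∧
      (r = 1 → Module.finrank K ((U * V).map ev.toLinearMap) + Module.finrank K V ≤
        Module.finrank K ↥(U * V)) := by
  obtain ⟨⟨i0, hi0⟩, -⟩ := hevcut K R r e hdec L ev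
  constructor
  · obtain ⟨F, hF, h1, h2⟩ := catal_core hdec U V hinv i0 f hf hf0
    have h3 : ev F = 0 := by
      rcases h1 with rfl | h1
      · exact hev
      · have := congrArg ev h1
        rwa [map_mul, hi0, one_mul, map_zero] at this
    have := ev_key U V L ev F hF h3
    omega
  · rintro rfl
    have h1 := ev_key U V L ev f hf hev
    have h2 := full_mul hdec V f (by
      intro i h0
      apply hf0
      refine dec_zero hdec fun j => ?_
      rw [Subsingleton.elim j i]
      exact h0)
    omega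

end Catal

end

end Pool.Agent.Lib.MP_ae0f86_nt
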