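import Pool.Agent.Lib.MP_ae0f86_nt.G.Embed

/-!
# MP_ae0f86_nt : the density along one exhausting sequence of objects
-/

universe w v u

open CategoryTheory CategoryTheory.Limits Opposite MonoidalCategory Filter

namespace Pool.Agent.Lib.MP_ae0f86_nt

noncomputable section

attribute [local instance] CategoryTheory.Abelian.hasFiniteBiproducts

/-- An auxiliary limit. -/
theorem tend_aux (N n : ℕ → ℕ) (hN : ∀ k, 1 ≤ N k)
    (hn : Tendsto (fun k => (n k : ℝ) / N k) atTop atTop) (m : ℕ) :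
    Tendsto (fun k => (1 + (N k : ℝ) / (((n k - m : ℕ) : ℝ) + 1)) ^ m) atTop (nhds 1) ∧
      ∀ᶠ k in atTop, m ≤ n k := by
  have hN' : ∀ k, (1 : ℝ) ≤ N k := fun k => by exact_mod_cast hN k
  have hle : ∀ k, (n k : ℝ) / N k ≤ n k := fun k =>
    div_le_self (by positivity) (hN' k)
  constructor
  · have h1 : Tendsto (fun k => (((n k - m : ℕ) : ℝ) + 1) / N k) atTop atTop := by
      have h2 : Tendsto (fun k => (n k : ℝ) / N k + (-(m : ℝ))) atTop atTop :=
        tendsto_atTop_add_const_right _ _ hn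
      refine tendsto_atTop_mono (fun k => ?_) h2
      have h3 : (n k : ℝ) ≤ ((n k - m : ℕ) : ℝ) + m := by
        have : n k ≤ (n k - m) + m := by omega
        exact_mod_cast this
      have h4 : (0 : ℝ) < N k := by linarith [hN' k]
      rw [le_div_iff₀ h4, add_mul, div_mul_cancel₀ _ h4.ne']
      have h5 : (m : ℝ) ≤ m * N k := by
        have : (0 : ℝ) ≤ m := by positivity
        nlinarith [hN' k]
      linarith
    have h6 : Tendsto (fun k => (N k : ℝ) / (((n k - m : ℕ) : ℝ) + 1)) atTop (nhds 0) := by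
      have h7 := tendsto_inv_atTop_zero.comp h1
      refine h7.congr fun k => ?_
      simp only [Function.comp]
      rw [inv_div]
    have h8 : Tendsto (fun k => (1 + (N k : ℝ) / (((n k - m : ℕ) : ℝ) + 1)) ^ m) atTop
        (nhds ((1 + 0) ^ m)) := (tendsto_const_nhds.add h6).pow m
    simpa using h8
  · filter_upwards [hn.eventually_ge_atTop (m : ℝ)] with k hk
    have := hk.trans (hle k)
    exact_mod_cast this

section Seq

variable {A : Type u} [Category.{v} A] [Abelian A] [Linear ℚ A] [MonoidalCategory A]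
  [SymmetricCategory A] [RigidCategory A] {HdR : A ⥤ ModuleCat.{0} QBar}
  {HB : A ⥤ ModuleCat.{0} ℚ} [FibreFunctor HdR] [FibreFunctor HB]

theorem Pf_le_Nf (c : Comparison HdR HB) (W : A) : Pf c W ≤ Nf HB W := by
  have := a_fwfin HdR HB (S := fun _ : A => True) (W := W) trivial
  rw [(a_fwtop c W).1, (a_fwtop c W).2]
  exact Submodule.finrank_map_le _ _

theorem Nf_pow_pos (c : Comparison HdR HB) (T : A) (hT : Lin T (𝟙_ A)) (n : ℕ) :
    0 < Nf HB (tpow T n) := by
  obtain ⟨r, g, t, -, -, -, -, -, -, ⟨a, b, ha, hab⟩, -⟩ := a_law c T hT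
  have h1 := (hab n).1
  have h2 : 0 < a * ((n : ℝ) + 1) ^ g := by positivity
  exact_mod_cast h2.trans_le h1

theorem Nf_pos (c : Comparison HdR HB) (T : A) (hT : Lin T (𝟙_ A)) : 1 ≤ Nf HB T := by
  have h1 := Nf_pow_pos c T hT 0
  have h2 := (a_lineqv c T (𝟙_ A) hT).1
  exact le_trans h1 h2

theorem ncomp_pos (c : Comparison HdR HB) (M : A) : 1 ≤ ncomp HdR HB M ∧
    (ConnectedSpace (PrimeSpectrum (PerAlg HdR HB (Gen M))) ↔ ncomp HdR HB M = 1) := by
  obtain ⟨r, e, hdec⟩ := a_pdec HdR HB M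
  obtain ⟨hr, -⟩ := a_dims c M r e hdec
  obtain ⟨-, h2, h3⟩ := d_comps _ r e hdec
  rw [ncomp, h2]
  exact ⟨hr, h3⟩

/-- If all dimension formulas hold, at least the proportion `1 / ncomp M` of the predicted number
of periods of the objects of `⟨M⟩` is independent. -/
theorem ratio_lower (c : Comparison HdR HB) (T : A) (hT : Lin T (𝟙_ A)) (hD : DimFormula c T)
    (n : ℕ) :
    (1 : ℝ) / ncomp HdR HB T ≤ (Pf c (tpow T n) : ℝ) / Nf HB (tpow T n) := by
  obtain ⟨r, g, t, hr, -, -, hnc, -, -, -, hlim, -, hdf, -⟩ := a_law c T hT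
  have h1 := (hlim (hdf.1 hD)).2 (tpow T n) (genpow_mem T n)
  have h2 := Nf_pow_pos c T hT n
  rw [hnc, div_le_div_iff₀ (by exact_mod_cast hr) (by exact_mod_cast h2)]
  have h3 : (Nf HB (tpow T n) : ℝ) ≤ r * Pf c (tpow T n) := by exact_mod_cast h1
  linarith

/-- The objects `T_k`, with exponents `n_k`. -/
structure Exhausting (HB : A ⥤ ModuleCat.{0} ℚ) [FibreFunctor HB] (T : ℕ → A) (n : ℕ → ℕ) :
    Prop where
  one : Lin (T 0) (𝟙_ A)
  mono : ∀ k, Lin (T (k + 1)) (T k)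
  exh : ∀ M : A, ∃ k, Gen (T k) M
  big : Tendsto (fun k => (n k : ℝ) / Nf HB (T k)) atTop atTop

variable {T : ℕ → A} {n : ℕ → ℕ}

omit [Linear ℚ A] in
theorem Exhausting.lin (h : Exhausting HB T n) {k l : ℕ} (hkl : k ≤ l) : Lin (T l) (T k) := by
  induction l, hkl using Nat.le_induction with
  | base => exact (a_lincl (A := A)).2.1 _
  | succ l _ ih => exact (a_lincl (A := A)).2.2.2.2 _ _ _ (h.mono l) ih

omit [Linear ℚ A] in
theorem Exhausting.lin1 (h : Exhausting HB T n) (k : ℕ) : Lin (T k) (𝟙_ A) :=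
  (a_lincl (A := A)).2.2.2.2 _ _ _ (h.lin (Nat.zero_le k)) h.one

/-- The ratio of the actual and the predicted number. -/
def ratioPN (c : Comparison HdR HB) (W : A) : ℝ := (Pf c W : ℝ) / Nf HB W

theorem upper_comp (c : Comparison HdR HB) (h : Exhausting HB T n) (k0 : ℕ) :
    ∃ v : ℕ → ℝ, Tendsto v atTop (nhds (1 / ncomp HdR HB (T k0))) ∧
      ∀ᶠ k in atTop, ratioPN c (tpow (T k) (n k)) ≤ v k := by
  obtain ⟨m, hm⟩ := comp_bound c (T k0) (h.lin1 k0)
  obtain ⟨h1, h2⟩ := tend_aux (fun k => Nf HB (T k)) n (fun k => Nf_pos c _ (h.lin1 k)) h.big m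
  have hr : (0 : ℝ) < ncomp HdR HB (T k0) := by exact_mod_cast (ncomp_pos c (T k0)).1
  refine ⟨fun k => (1 + (Nf HB (T k) : ℝ) / (((n k - m : ℕ) : ℝ) + 1)) ^ m /
    ncomp HdR HB (T k0), ?_, ?_⟩
  · exact h1.div_const _
  · filter_upwards [h2, eventually_ge_atTop k0] with k hk hk0
    obtain ⟨D, hD1, hD2, hD3⟩ := hm (T k) (h.lin hk0) (h.lin1 k)
    obtain ⟨l, hl⟩ : ∃ l, n k = l + m := ⟨n k - m, by omega⟩
    have hlm : n k - m = l := by omega
    simp only [hlm]
    have h3 := growth_iter D (Nf HB (T k)) (fun i => hD3 _ (Nat.le_succ _) i) l m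
    rw [← hl] at h3
    have h4 : (Pf c (tpow (T k) (n k)) : ℝ) ≤ D (n k) := by exact_mod_cast hD1 (n k)
    have h5 : (ncomp HdR HB (T k0) : ℝ) * D l ≤ Nf HB (tpow (T k) (n k)) := by
      rw [hl]
      exact_mod_cast hD2 l
    have h6 : (0 : ℝ) < Nf HB (tpow (T k) (n k)) := by
      exact_mod_cast Nf_pow_pos c _ (h.lin1 k) (n k)
    rw [ratioPN, div_le_div_iff₀ h6 hr]
    set x : ℝ := (1 + (Nf HB (T k) : ℝ) / ((l : ℝ) + 1)) ^ m with hx
    have hx0 : 0 ≤ x := by positivity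
    calc (Pf c (tpow (T k) (n k)) : ℝ) * ncomp HdR HB (T k0)
        ≤ (x * D l) * ncomp HdR HB (T k0) :=
          mul_le_mul_of_nonneg_right (h4.trans h3) hr.le
      _ = x * (ncomp HdR HB (T k0) * D l) := by ring
      _ ≤ x * Nf HB (tpow (T k) (n k)) := mul_le_mul_of_nonneg_left h5 hx0

theorem upper_dim (c : Comparison HdR HB) (h : Exhausting HB T n) (k0 : ℕ)
    (hD : ¬ DimFormula c (T k0)) :
    Tendsto (fun k => ratioPN c (tpow (T k) (n k))) atTop (nhds 0) := by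
  obtain ⟨m, hm⟩ := dim_fail c (T k0) (h.lin1 k0) hD
  obtain ⟨h1, h2⟩ := tend_aux (fun k => Nf HB (T k)) n (fun k => Nf_pos c _ (h.lin1 k)) h.big m
  have h0 : ∀ k, 0 ≤ ratioPN c (tpow (T k) (n k)) := fun k => by
    unfold ratioPN; positivity
  have h7 : Tendsto (fun k => 1 - ((1 + (Nf HB (T k) : ℝ) / (((n k - m : ℕ) : ℝ) + 1)) ^ m)⁻¹)
      atTop (nhds 0) := by
    have := (tendsto_const_nhds (x := (1 : ℝ))).sub (h1.inv₀ one_ne_zero)
    simpa using this
  refine squeeze_zero' (Eventually.of_forall h0) ?_ h7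
  filter_upwards [h2, eventually_ge_atTop k0] with k hk hk0
  obtain ⟨l, hl⟩ : ∃ l, n k = l + m := ⟨n k - m, by omega⟩
  have hlm : n k - m = l := by omega
  simp only [hlm]
  have h3 := hm (T k) (h.lin hk0) (h.lin1 k) l
  rw [← hl] at h3
  have h4 := growth_iter (fun i => Nf HB (tpow (T k) i)) (Nf HB (T k))
    (fun i => Nf_growth c (T k) (h.lin1 k) _ (Nat.le_succ _) i) l m
  rw [← hl] at h4
  have h6 : (0 : ℝ) < Nf HB (tpow (T k) (n k)) := by
    exact_mod_cast Nf_pow_pos c _ (h.lin1 k) (n k)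
  set x : ℝ := (1 + (Nf HB (T k) : ℝ) / ((l : ℝ) + 1)) ^ m with hx
  have hx0 : 0 < x := by positivity
  have h3' : (Pf c (tpow (T k) (n k)) : ℝ) + Nf HB (tpow (T k) l) ≤
      Nf HB (tpow (T k) (n k)) := by exact_mod_cast h3
  have h8 : (Nf HB (tpow (T k) (n k)) : ℝ) * x⁻¹ ≤ Nf HB (tpow (T k) l) := by
    rw [← div_eq_mul_inv, div_le_iff₀ hx0]
    linarith
  rw [ratioPN, div_le_iff₀ h6]
  linarith

/-- The density law along an exhausting sequence. -/
theorem seq_law (c : Comparison HdR HB) (h : Exhausting HB T n) :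
    ((∀ M : A, DimFormula c M) → Tendsto (fun k => ratioPN c (tpow (T k) (n k))) atTop
      (nhds (⨅ M : A, (1 : ℝ) / ncomp HdR HB M))) ∧
    ((¬ ∀ M : A, DimFormula c M) → Tendsto (fun k => ratioPN c (tpow (T k) (n k))) atTop
      (nhds 0)) := by
  have hbdd : BddBelow (Set.range fun M : A => (1 : ℝ) / ncomp HdR HB M) :=
    ⟨0, by rintro _ ⟨M, rfl⟩; positivity⟩
  constructor
  · intro hall
    rw [tendsto_order]
    constructor
    · intro a ha
      refine Eventually.of_forall fun k => ?_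
      have h1 := ratio_lower c (T k) (h.lin1 k) (hall _) (n k)
      have h2 : (⨅ M : A, (1 : ℝ) / ncomp HdR HB M) ≤ 1 / ncomp HdR HB (T k) :=
        ciInf_le hbdd (T k)
      exact ha.trans_le (h2.trans h1)
    · intro b hb
      have : Nonempty A := ⟨𝟙_ A⟩
      obtain ⟨M, hM⟩ := exists_lt_of_ciInf_lt hb
      obtain ⟨k0, hk0⟩ := h.exh M
      obtain ⟨v, hv1, hv2⟩ := upper_comp c h k0
      have h1 : (1 : ℝ) / ncomp HdR HB (T k0) ≤ 1 / ncomp HdR HB M := by
        have h2 := (a_herdim c (T k0) M hk0).1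
        have h3 : (0 : ℝ) < ncomp HdR HB M := by exact_mod_cast (ncomp_pos c M).1
        exact one_div_le_one_div_of_le h3 (by exact_mod_cast h2)
      filter_upwards [hv2, hv1.eventually (gt_mem_nhds (h1.trans_lt hM))] with k hk1 hk2
      exact hk1.trans_lt hk2
  · intro hnot
    push Not at hnot
    obtain ⟨M, hM⟩ := hnot
    obtain ⟨k0, hk0⟩ := h.exh M
    exact upper_dim c h k0 fun hD => hM ((a_herdim c (T k0) M hk0).2 hD)

/-- Consequences of the law. -/
theorem seq_tfae (c : Comparison HdR HB) (h : Exhausting HB T n) :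
    List.TFAE [
      ∀ M : A, PeriodConjecture c M,
      ∃ δ : ℝ, 1 / 2 < δ ∧ ∃ᶠ k in atTop,
        δ * (Nf HB (tpow (T k) (n k)) : ℝ) ≤ Pf c (tpow (T k) (n k)),
      ∀ k, Pf c (tpow (T k) (n k)) = Nf HB (tpow (T k) (n k))] ∧
    List.TFAE [
      (∀ M : A, DimFormula c M) ∧ ∃ r : ℕ, ∀ M : A, ncomp HdR HB M ≤ r,
      ∃ δ : ℝ, 0 < δ ∧ ∃ᶠ k in atTop,
        δ * (Nf HB (tpow (T k) (n k)) : ℝ) ≤ Pf c (tpow (T k) (n k))] := by
  have hbdd : BddBelow (Set.range fun M : A => (1 : ℝ) / ncomp HdR HB M) :=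
    ⟨0, by rintro _ ⟨M, rfl⟩; positivity⟩
  have hpos : ∀ k, (0 : ℝ) < Nf HB (tpow (T k) (n k)) := fun k => by
    exact_mod_cast Nf_pow_pos c _ (h.lin1 k) (n k)
  obtain ⟨hl1, hl2⟩ := seq_law c h
  have key : ∀ δ : ℝ, 0 < δ → (∃ᶠ k in atTop,
      δ * (Nf HB (tpow (T k) (n k)) : ℝ) ≤ Pf c (tpow (T k) (n k))) →
      (∀ M : A, DimFormula c M) ∧ ∀ M : A, δ ≤ 1 / ncomp HdR HB M := by
    intro δ hδ hf
    have hf' : ∃ᶠ k in atTop, δ ≤ ratioPN c (tpow (T k) (n k)) := by
      refine hf.mono fun k hk => ?_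
      rwa [ratioPN, le_div_iff₀ (hpos k)]
    have hall : ∀ M : A, DimFormula c M := by
      by_contra hnot
      have h1 := (hl2 hnot).eventually (gt_mem_nhds hδ)
      obtain ⟨k, hk1, hk2⟩ := (hf'.and_eventually h1).exists
      linarith
    refine ⟨hall, fun M => ?_⟩
    have h1 := hl1 hall
    have h2 : δ ≤ ⨅ M : A, (1 : ℝ) / ncomp HdR HB M := by
      by_contra hlt
      push Not at hlt
      obtain ⟨k, hk1, hk2⟩ := (hf'.and_eventually (h1.eventually (gt_mem_nhds hlt))).exists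
      linarith
    exact h2.trans (ciInf_le hbdd M)
  have hq : ∀ M : A, PeriodConjecture c M ↔ ncomp HdR HB M = 1 ∧ DimFormula c M := by
    intro M
    rw [PeriodConjecture, (ncomp_pos c M).2]
  constructor
  · tfae_have 1 → 3 := by
      intro hall k
      refine le_antisymm (Pf_le_Nf c _) ?_
      obtain ⟨h1, h2⟩ := (hq (T k)).1 (hall (T k))
      have h3 := ratio_lower c (T k) (h.lin1 k) h2 (n k)
      rw [h1, Nat.cast_one, div_one, one_le_div (hpos k)] at h3
      exact_mod_cast h3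
    tfae_have 3 → 2 := by
      intro hall
      refine ⟨1, by norm_num, Frequently.of_forall fun k => ?_⟩
      rw [hall k, one_mul]
    tfae_have 2 → 1 := by
      rintro ⟨δ, hδ, hf⟩ M
      obtain ⟨h1, h2⟩ := key δ (by linarith) hf
      rw [hq]
      refine ⟨?_, h1 M⟩
      have h3 := h2 M
      have h4 := (ncomp_pos c M).1
      by_contra hne
      have h5 : (2 : ℝ) ≤ ncomp HdR HB M := by
        have : 2 ≤ ncomp HdR HB M := by omega
        exact_mod_cast this
      have h6 : (1 : ℝ) / ncomp HdR HB M ≤ 1 / 2 := one_div_le_one_div_of_le (by norm_num) h5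
      linarith
    tfae_finish
  · tfae_have 1 → 2 := by
      rintro ⟨h1, r, hr⟩
      refine ⟨1 / (r : ℝ), ?_, Frequently.of_forall fun k => ?_⟩
      · have : 1 ≤ r := (ncomp_pos c (𝟙_ A)).1.trans (hr _)
        have : (0 : ℝ) < r := by exact_mod_cast this
        positivity
      · have h3 := ratio_lower c (T k) (h.lin1 k) (h1 _) (n k)
        have h4 : (0 : ℝ) < ncomp HdR HB (T k) := by exact_mod_cast (ncomp_pos c (T k)).1
        have h5 : (1 : ℝ) / r ≤ 1 / ncomp HdR HB (T k) :=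
          one_div_le_one_div_of_le h4 (by exact_mod_cast hr _)
        rw [← le_div_iff₀ (hpos k)]
        exact h5.trans h3
    tfae_have 2 → 1 := by
      rintro ⟨δ, hδ, hf⟩
      obtain ⟨h1, h2⟩ := key δ hδ hf
      refine ⟨h1, ⌈1 / δ⌉₊, fun M => ?_⟩
      have h4 : (0 : ℝ) < ncomp HdR HB M := by exact_mod_cast (ncomp_pos c M).1
      have h3 := h2 M
      rw [le_div_iff₀ h4] at h3
      have h5 : (ncomp HdR HB M : ℝ) ≤ 1 / δ := by
        rw [le_div_iff₀ hδ]; linarith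
      exact_mod_cast h5.trans (Nat.le_ceil _)
    tfae_finish

end Seq

end

end Pool.Agent.Lib.MP_ae0f86_nt
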