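import Pool.Agent.Lib.MP_ae0f86_nt.Systems
import Pool.Agent.Lib.MP_ae0f86_nt.G.SeqLaw

/-!
# MP_ae0f86_nt : the density along one sequence of cubics
-/

universe w v u

open CategoryTheory CategoryTheory.Limits Opposite MonoidalCategory Filter

namespace Pool.Agent.Lib.MP_ae0f86_nt

noncomputable section

attribute [local instance] CategoryTheory.Abelian.hasFiniteBiproducts

/-- The renaming of the coordinates is an isomorphism. -/
theorem g_iso {k : Type} [Field k] {ι ι' : Type} [Finite ι] [Finite ι'] (ε : ι ≃ ι')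
    {X : Set (ι → k)} {X' : Set (ι' → k)} (hX : IsAlg X) (hX' : IsAlg X')
    (h : X' = {z | z ∘ ε ∈ X}) : Nonempty (AffPair.abs hX' ≅ AffPair.abs hX) := by
  subst h
  let f : AffPair.abs hX' ⟶ AffPair.abs hX :=
    ⟨fun z => ⟨z.1 ∘ ε, z.2⟩, ⟨fun j => MvPolynomial.X (ε j), by intro x j; simp⟩,
      fun x hx => hx.elim⟩
  let g : AffPair.abs hX ⟶ AffPair.abs hX' :=
    ⟨fun z => ⟨z.1 ∘ ε.symm, by
        show (z.1 ∘ ε.symm) ∘ ε ∈ X
        have : (z.1 ∘ ε.symm) ∘ ε = z.1 := by
          funext i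
          simp
        rw [this]
        exact z.2⟩, ⟨fun j => MvPolynomial.X (ε.symm j), by intro x j; simp⟩,
      fun x hx => hx.elim⟩
  have : IsIso f := by
    refine isIso_of_inv f g (fun x => ?_) (fun y => ?_)
    · funext i
      show (x.1 : ι' → k) (ε (ε.symm i)) = x.1 i
      rw [Equiv.apply_symm_apply]
    · funext i
      show (y.1 : ι → k) (ε.symm (ε i)) = y.1 i
      rw [Equiv.symm_apply_apply]
  exact ⟨asIso f⟩

theorem g_total {k : Type} [Field k] {A : Type u} [Category.{v} A] [Abelian A]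
    [MonoidalCategory A] (T : CohTheory k A) {P Q : AffPair k} (e : P ≅ Q)
    (hc : Nat.card P.ι = Nat.card Q.ι) : Nonempty (T.total P ≅ T.total Q) := by
  unfold CohTheory.total
  have hn : 2 * Nat.card P.ι + 1 = 2 * Nat.card Q.ι + 1 := by rw [hc]
  refine ⟨biproduct.whiskerEquiv (finCongr hn) fun j => ?_⟩
  exact (T.h (j : ℤ)).mapIso e.op

theorem g_lin {A : Type u} [Category.{v} A] [Abelian A] {W W' : A}
    (e : W ≅ W') : Lin W W' ∧ Lin W' W := by
  have h4 : S_lincl A := a_lincl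
  constructor
  · exact (h4.1 W).quot e.hom (h4.2.1 W)
  · exact (h4.1 W').quot e.inv (h4.2.1 W')

/-- The product set, in the coordinates of `ι ⊕ ι'`. -/
def prodSet (X Y : QSystem) : Set (Fin X.n ⊕ Fin Y.n → QBar) :=
  {z | z ∘ Sum.inl ∈ X.zeros ∧ z ∘ Sum.inr ∈ Y.zeros}

theorem prod_q_left (X Y : QSystem) (a : Fin X.r) : (X.prod Y).q (Fin.castAdd Y.r a) =
    MvPolynomial.rename (Fin.castAdd Y.n) (X.q a) :=
  Fin.addCases_left (motive := fun _ => MvPolynomial (Fin (X.n + Y.n)) ℤ)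
    (left := fun a => MvPolynomial.rename (Fin.castAdd Y.n) (X.q a))
    (right := fun b => MvPolynomial.rename (Fin.natAdd X.n) (Y.q b)) a

theorem prod_q_right (X Y : QSystem) (b : Fin Y.r) : (X.prod Y).q (Fin.natAdd X.r b) =
    MvPolynomial.rename (Fin.natAdd X.n) (Y.q b) :=
  Fin.addCases_right (motive := fun _ => MvPolynomial (Fin (X.n + Y.n)) ℤ)
    (left := fun a => MvPolynomial.rename (Fin.castAdd Y.n) (X.q a))
    (right := fun b => MvPolynomial.rename (Fin.natAdd X.n) (Y.q b)) b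

theorem eval_map_rename {m n : ℕ} (f : Fin m → Fin n) (p : MvPolynomial (Fin m) ℤ)
    (z : Fin n → QBar) :
    MvPolynomial.eval z (MvPolynomial.map (Int.castRingHom QBar) (MvPolynomial.rename f p)) =
      MvPolynomial.eval (z ∘ f) (MvPolynomial.map (Int.castRingHom QBar) p) := by
  rw [MvPolynomial.map_rename, MvPolynomial.eval_rename]

theorem mem_prod_zeros (X Y : QSystem) (z : Fin (X.n + Y.n) → QBar) :
    z ∈ (X.prod Y).zeros ↔ z ∘ (finSumFinEquiv : Fin X.n ⊕ Fin Y.n ≃ _) ∈ prodSet X Y := by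
  have e1 : ∀ a : Fin X.r, MvPolynomial.eval z (MvPolynomial.map (Int.castRingHom QBar)
      ((X.prod Y).q (Fin.castAdd Y.r a))) = MvPolynomial.eval (z ∘ Fin.castAdd Y.n)
        (MvPolynomial.map (Int.castRingHom QBar) (X.q a)) := by
    intro a
    rw [prod_q_left]
    exact eval_map_rename _ _ _
  have e2 : ∀ b : Fin Y.r, MvPolynomial.eval z (MvPolynomial.map (Int.castRingHom QBar)
      ((X.prod Y).q (Fin.natAdd X.r b))) = MvPolynomial.eval (z ∘ Fin.natAdd X.n)
        (MvPolynomial.map (Int.castRingHom QBar) (Y.q b)) := by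
    intro b
    rw [prod_q_right]
    exact eval_map_rename _ _ _
  constructor
  · intro h
    refine ⟨fun a => ?_, fun b => ?_⟩
    · exact (e1 a).symm.trans (h (Fin.castAdd Y.r a))
    · exact (e2 b).symm.trans (h (Fin.natAdd X.r b))
  · rintro ⟨ha, hb⟩ j
    refine Fin.addCases (m := X.r) (n := Y.r) (motive := fun j => MvPolynomial.eval z
      (MvPolynomial.map (Int.castRingHom QBar) ((X.prod Y).q j)) = 0)
      (fun a => ?_) (fun b => ?_) j
    · exact (e1 a).trans (ha a)
    · exact (e2 b).trans (hb b)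

theorem prod_zeros (X Y : QSystem) : (X.prod Y).zeros =
    {z | z ∘ (finSumFinEquiv : Fin X.n ⊕ Fin Y.n ≃ _) ∈ prodSet X Y} :=
  Set.ext fun z => mem_prod_zeros X Y z

theorem prod_admissible {X Y : QSystem} (hX : X.Admissible) (hY : Y.Admissible) :
    (X.prod Y).Admissible ∧ IsAlg (prodSet X Y) := by
  obtain ⟨h1, ⟨x, hx⟩, s, hs, h3⟩ := hX
  obtain ⟨h1', ⟨x', hx'⟩, s', hs', h3'⟩ := hY
  have hYs : IsSmooth (s + s') (prodSet X Y) := a_smprod _ _ h3 h3'
  refine ⟨⟨?_, ?_, s + s', by omega, ?_⟩, hYs.1⟩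
  · intro j
    refine Fin.addCases (m := X.r) (n := Y.r) (motive := fun j => SignQuadric ((X.prod Y).q j))
      (fun a => ?_) (fun b => ?_) j
    · rw [prod_q_left]
      exact p_quadrics_rename _ (Fin.castAdd_injective _ _) (h1 a)
    · rw [prod_q_right]
      exact p_quadrics_rename _ (Fin.natAdd_injective _ _) (h1' b)
  · refine ⟨(Sum.elim x x' ∘ finSumFinEquiv.symm : Fin (X.n + Y.n) → QBar),
      (mem_prod_zeros X Y _).2 ?_⟩
    have e2 : (Sum.elim x x' ∘ finSumFinEquiv.symm : Fin (X.n + Y.n) → QBar) ∘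
        (finSumFinEquiv : Fin X.n ⊕ Fin Y.n ≃ _) = Sum.elim x x' := by
      funext i
      simp
    rw [e2]
    exact ⟨hx, hx'⟩
  · rw [prod_zeros]
    exact p_smreindex finSumFinEquiv _ hYs

section Lins

variable {A : Type u} [Category.{v} A] [Abelian A] [MonoidalCategory A]
  [MonoidalPreadditive A] (T : CohTheory QBar A)

/-- The total cohomology of the zero locus of a system. -/
abbrev CohTheory.tX (X : QSystem) : A := T.total (AffPair.abs X.zeros_alg)

theorem prod_iso {X Y : QSystem} (hA : IsAlg (prodSet X Y)) :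
    Lin (T.tX (X.prod Y)) (T.total (AffPair.abs hA)) ∧
      Lin (T.total (AffPair.abs hA)) (T.tX (X.prod Y)) := by
  obtain ⟨e⟩ := g_iso finSumFinEquiv hA (X.prod Y).zeros_alg (prod_zeros X Y)
  obtain ⟨E⟩ := g_total T e (by
    show Nat.card (Fin (X.n + Y.n)) = Nat.card (Fin X.n ⊕ Fin Y.n)
    exact (Nat.card_congr finSumFinEquiv).symm)
  exact g_lin E

theorem lin_prod (hK : T.Kunneth) {X Y : QSystem} (hX : X.Admissible) (hY : Y.Admissible) :
    Lin (T.tX (X.prod Y)) (T.tX X ⊗ T.tX Y) ∧ Lin (T.tX X ⊗ T.tX Y) (T.tX (X.prod Y)) := by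
  have htr := (a_lincl (A := A)).2.2.2.2
  obtain ⟨-, hA⟩ := prod_admissible hX hY
  obtain ⟨l1, l2⟩ := prod_iso T hA
  obtain ⟨k1, k2⟩ := e_kuneqv T a_subsum a_subq hK X.zeros_alg Y.zeros_alg hA rfl
  exact ⟨htr _ _ _ l1 k1, htr _ _ _ k2 l2⟩

/-- If all `h^i(P)` embed into `h^i(Q)` then `h^*(P)` is a subquotient of a power of `h^*(Q)`. -/
theorem lin_total_of_mono {P Q : AffPair QBar} (hc : Nat.card P.ι ≤ Nat.card Q.ι)
    (h : ∀ i : ℤ, ∃ f : (T.h i).obj (op P) ⟶ (T.h i).obj (op Q), Mono f) :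
    Lin (T.total Q) (T.total P) := by
  obtain ⟨hsq, hsum, -, -, hself, hzero, hiff⟩ := a_subsum (A := A)
  obtain ⟨-, -, hiso, hmono, -, -⟩ := a_subq (A := A)
  rw [← hiff]
  refine hsum _ _ _ fun m => ?_
  obtain ⟨f, hf⟩ := h (m : ℕ)
  let G : Fin (2 * Nat.card Q.ι + 1) → A := fun j => (T.h ((j : ℕ) : ℤ)).obj (op Q)
  have hlt : (m : ℕ) < 2 * Nat.card Q.ι + 1 := by
    have := m.2
    omega
  let f2 : G ⟨(m : ℕ), hlt⟩ ⟶ T.total Q := biproduct.ι G ⟨(m : ℕ), hlt⟩
  have hf2 : Mono f2 := inferInstanceAs (Mono (biproduct.ι G _))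
  have hm : Mono (f ≫ f2) := mono_comp _ _
  exact hsq _ _ _ (hself _ _ rfl) (hmono _ _ (f ≫ f2) hm)

theorem lin_prod_left {X Y : QSystem} (hX : X.Admissible) (hY : Y.Admissible) :
    Lin (T.tX (X.prod Y)) (T.tX X) := by
  have htr := (a_lincl (A := A)).2.2.2.2
  obtain ⟨-, hA⟩ := prod_admissible hX hY
  refine htr _ _ _ (prod_iso T hA).1 (lin_total_of_mono T ?_ fun i => ?_)
  · show Nat.card (Fin X.n) ≤ Nat.card (Fin X.n ⊕ Fin Y.n)
    rw [Nat.card_sum]
    omega
  · exact (p_prodsub T X.zeros_alg Y.zeros_alg hA rfl i).1 hY.2.1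

theorem lin_prod_right {X Y : QSystem} (hX : X.Admissible) (hY : Y.Admissible) :
    Lin (T.tX (X.prod Y)) (T.tX Y) := by
  have htr := (a_lincl (A := A)).2.2.2.2
  obtain ⟨-, hA⟩ := prod_admissible hX hY
  refine htr _ _ _ (prod_iso T hA).1 (lin_total_of_mono T ?_ fun i => ?_)
  · show Nat.card (Fin Y.n) ≤ Nat.card (Fin X.n ⊕ Fin Y.n)
    rw [Nat.card_sum]
    omega
  · exact (p_prodsub T X.zeros_alg Y.zeros_alg hA rfl i).2 hX.2.1

end Lins

section Power

variable {A : Type u} [Category.{v} A] [Abelian A] [MonoidalCategory A]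
  [MonoidalPreadditive A] [SymmetricCategory A] [RigidCategory A] (T : CohTheory QBar A)
  {HdR : A ⥤ ModuleCat.{0} QBar} {HB : A ⥤ ModuleCat.{0} ℚ} [FibreFunctor HdR]
  [FibreFunctor HB]

theorem power_admissible {X : QSystem} (hX : X.Admissible) (n : ℕ) :
    (X.power n).Admissible := by
  induction n with
  | zero => exact hX
  | succ n ih => exact (prod_admissible ih hX).1

theorem partialProd_admissible {X : ℕ → QSystem} (hX : ∀ k, (X k).Admissible) (k : ℕ) :
    (QSystem.partialProd X k).Admissible := by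
  induction k with
  | zero => exact hX 0
  | succ k ih => exact (prod_admissible ih (hX (k + 1))).1

variable (HdR HB) in
theorem fw_power (hK : T.Kunneth) {X : QSystem} (hX : X.Admissible) (n : ℕ) :
    fw HdR HB (S := fun _ : A => True) (W := T.tX (X.power n)) trivial =
      fw HdR HB (S := fun _ : A => True) (W := tpow (T.tX X) (n + 1)) trivial := by
  have h4 : S_genclosed (A := A) := a_genclosed
  have hcl : Closed (fun _ : A => True) := h4.2.1.toClosed
  have h2 : S_fwlin HdR HB := a_fwlin HdR HB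
  have h3 : S_fwprod HdR HB := a_fwprod HdR HB
  induction n with
  | zero =>
    have e1 := h3.1 (S := fun _ : A => True) (M := 𝟙_ A) (N := T.tX X) trivial trivial trivial
    have e2 := h3.2 (S := fun _ : A => True) trivial
    rw [e2, Submodule.one_mul] at e1
    exact e1.symm
  | succ n ih =>
    obtain ⟨hl1, hl2⟩ := lin_prod T hK (power_admissible hX n) hX
    have e1 : fw HdR HB (S := fun _ : A => True) (W := T.tX (X.power (n + 1))) trivial =
        fw HdR HB (S := fun _ : A => True) (W := T.tX (X.power n) ⊗ T.tX X) trivial :=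
      le_antisymm (h2 hcl trivial trivial hl2) (h2 hcl trivial trivial hl1)
    have e2 := h3.1 (S := fun _ : A => True) (M := T.tX (X.power n)) (N := T.tX X)
      trivial trivial trivial
    have e3 := h3.1 (S := fun _ : A => True) (M := tpow (T.tX X) (n + 1)) (N := T.tX X)
      trivial trivial trivial
    rw [ih, ← e3] at e2
    exact e1.trans e2

end Power

section Final

variable {A : Type u} [Category.{v} A] [Abelian A] [Linear ℚ A] [MonoidalCategory A]
  [MonoidalPreadditive A] [SymmetricCategory A] [RigidCategory A] (T : CohTheory QBar A)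
  {HdR : A ⥤ ModuleCat.{0} QBar} {HB : A ⥤ ModuleCat.{0} ℚ} [FibreFunctor HdR]
  [FibreFunctor HB]

/-- The numbers of the cubic of a system are those of its zero locus. -/
theorem cubic_numbers (c : Comparison HdR HB) {X : QSystem} (hX : X.Admissible) :
    Nf HB (T.cubicCoh X) = Nf HB (T.tX X) ∧ Pf c (T.cubicCoh X) = Pf c (T.tX X) := by
  obtain ⟨-, -, s, hs, hsm⟩ := hX
  obtain ⟨h1, h2⟩ := a_poseqv T (fun j => MvPolynomial.map (Int.castRingHom QBar) (X.q j)) s hs
    hsm
  obtain ⟨h3, h4⟩ := a_lineqv c _ _ h1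
  obtain ⟨h5, h6⟩ := a_lineqv c _ _ h2
  obtain ⟨h7, h8⟩ := a_twisteqv c T.L T.tate (T.tX X) T.tateIso s
  exact ⟨(le_antisymm h5 h3).trans h7, (le_antisymm h6 h4).trans h8⟩

theorem cubic_power (c : Comparison HdR HB) (hK : T.Kunneth) {X : QSystem}
    (hX : X.Admissible) (n : ℕ) :
    Nf HB (T.cubicCoh (X.power n)) = Nf HB (tpow (T.tX X) (n + 1)) ∧
      Pf c (T.cubicCoh (X.power n)) = Pf c (tpow (T.tX X) (n + 1)) := by
  obtain ⟨h1, h2⟩ := cubic_numbers T c (power_admissible hX n)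
  rw [h1, h2, (a_fwtop c (T.tX (X.power n))).1, (a_fwtop c (T.tX (X.power n))).2,
    fw_power T HdR HB hK hX n, ← (a_fwtop c (tpow (T.tX X) (n + 1))).1,
    ← (a_fwtop c (tpow (T.tX X) (n + 1))).2]
  exact ⟨rfl, rfl⟩

omit [Linear ℚ A] [MonoidalPreadditive A] in
/-- Every object is in `⟨h^*(Z)⟩` for an admissible system. -/
theorem gen_system [MonoidalPreadditive A] (N : A) : ∃ X : QSystem, X.Admissible ∧
    Gen (T.tX X) N := by
  obtain ⟨e, n, r, s, q, hs, hq, hsm, hne, hL1, hL2⟩ := a_geoz T N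
  refine ⟨⟨n, r, q⟩, ⟨hq, hne, s, hs, hsm⟩, ?_⟩
  have hgc : S_genclosed (A := A) := a_genclosed
  set M : A := T.tX ⟨n, r, q⟩ with hM
  have hGL : Gen M T.L := hgc.2.2.1 _ _ hL2
  have hGt : Gen M T.tate := e_gentate T.L T.tate T.tateIso M hGL
  have hpw : ∀ (X : A), Gen M X → ∀ e : ℕ, Gen M (tpow X e) := by
    intro X hX e
    induction e with
    | zero => exact Gen.unit
    | succ e ih => exact Gen.tensor ih hX
  have h1 : Gen M (N ⊗ tpow T.L e) := hgc.2.2.1 _ _ hL1
  have h2 : Gen M ((N ⊗ tpow T.L e) ⊗ tpow T.tate e) := Gen.tensor h1 (hpw _ hGt e)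
  obtain ⟨i3⟩ := (p_twist T).2.1 N e 0
  let i : N ≅ (N ⊗ tpow T.L e) ⊗ tpow T.tate e :=
    (ρ_ N).symm ≪≫ i3.symm ≪≫ α_ N _ _ ≪≫
      whiskerLeftIso N (β_ (tpow T.tate e) (tpow T.L e)) ≪≫ (α_ N _ _).symm
  exact Gen.sub i.hom h2

/-- The partial products of an enumeration of the admissible systems form an exhausting
sequence. -/
theorem exhausting_systems (X : ℕ → QSystem) (hX : ∀ k, (X k).Admissible)
    (hex : ∀ Y : QSystem, Y.Admissible → ∃ k, X k = Y) (n : ℕ → ℕ)
    (hn : Tendsto (fun k => (n k : ℝ) / (T.betti HB (QSystem.partialProd X k) : ℝ) ^ 2) atTop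
      atTop) (c : Comparison HdR HB) :
    Exhausting HB (fun k => T.tX (QSystem.partialProd X k)) (fun k => n k + 1) := by
  have hP := partialProd_admissible hX
  have hgc : S_genclosed (A := A) := a_genclosed
  refine ⟨a_unitq T _ (hX 0).2.1, fun k => lin_prod_left T (hP k) (hX (k + 1)), fun M => ?_, ?_⟩
  · obtain ⟨Y, hY, hG⟩ := gen_system T M
    obtain ⟨k, rfl⟩ := hex Y hY
    refine ⟨k, hgc.2.2.2 _ _ _ (hgc.2.2.1 _ _ ?_) hG⟩
    cases k with
    | zero => exact (a_lincl (A := A)).2.1 _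
    | succ k => exact lin_prod_right T (hP k) (hX (k + 1))
  · have hle : ∀ k, (n k : ℝ) / (T.betti HB (QSystem.partialProd X k) : ℝ) ^ 2 ≤
        ((n k + 1 : ℕ) : ℝ) / Nf HB (T.tX (QSystem.partialProd X k)) := by
      intro k
      have h1 : 1 ≤ Nf HB (T.tX (QSystem.partialProd X k)) :=
        Nf_pos c _ (a_unitq T _ (hP k).2.1)
      have h2 : Nf HB (T.tX (QSystem.partialProd X k)) ≤
          (T.betti HB (QSystem.partialProd X k)) ^ 2 := by
        have : Module.Finite ℚ (HB.obj (T.tX (QSystem.partialProd X k))) :=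
          FibreFunctor.finite _
        refine (Submodule.finrank_le _).trans ?_
        rw [Module.finrank_linearMap, CohTheory.betti, sq]
      have h3 : (0 : ℝ) < Nf HB (T.tX (QSystem.partialProd X k)) := by exact_mod_cast h1
      have h4 : (Nf HB (T.tX (QSystem.partialProd X k)) : ℝ) ≤
          (T.betti HB (QSystem.partialProd X k) : ℝ) ^ 2 := by exact_mod_cast h2
      calc (n k : ℝ) / (T.betti HB (QSystem.partialProd X k) : ℝ) ^ 2
          ≤ (n k : ℝ) / Nf HB (T.tX (QSystem.partialProd X k)) :=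
            div_le_div_of_nonneg_left (by positivity) h3 h4
        _ ≤ ((n k + 1 : ℕ) : ℝ) / Nf HB (T.tX (QSystem.partialProd X k)) := by
            apply div_le_div_of_nonneg_right _ h3.le
            push_cast
            linarith
    exact tendsto_atTop_mono hle hn

end Final

end

end Pool.Agent.Lib.MP_ae0f86_nt
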