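import Pool.Agent.Lib.MP_ae0f86_nt.StmD2
import Pool.Agent.Lib.MP_ae0f86_nt.D.Cut
import Pool.Agent.Lib.MP_ae0f86_nt.D.Abssub
import Pool.Agent.Lib.MP_ae0f86_nt.G.Catal

/-!
# MP_ae0f86_nt : subalgebras and growth, algebra
-/

universe w v u

namespace Pool.Agent.Lib.MP_ae0f86_nt

noncomputable section

section Tower

variable {K : Type} [Field K] {R R' : Type w} [CommRing R] [CommRing R'] [Algebra K R]
  [Algebra K R'] (j : R' →ₐ[K] R) {r r' : ℕ} {e : Fin r → R} {e' : Fin r' → R'}

/-- If `x` does not vanish on the component `k` of the subalgebra `R'`, it does not vanish on any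
component of `R` over `k`. -/
theorem tower_nzd (hj : Function.Injective j) (he : Dec R r e) (he' : Dec R' r' e')
    (htr : ∀ i l, ∃ (τ : R ≃ₐ[K] R) (τ' : R' ≃ₐ[K] R'), τ (e i) = e l ∧ ∀ a, τ (j a) = j (τ' a))
    (i0 : Fin r) (k0 : Fin r') (h1 : e i0 * j (e' k0) = e i0) (a : R')
    (ha : e' k0 * a ≠ 0) : e i0 * j a ≠ 0 := by
  intro h20
  obtain ⟨x, hx⟩ : ∃ x, x = e' k0 * a := ⟨_, rfl⟩
  rw [← hx] at ha
  have hxx : e' k0 * x = x := by rw [hx, ← mul_assoc, he'.idem]
  have h2 : e i0 * j x = 0 := by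
    rw [hx, map_mul, mul_left_comm, h20, mul_zero]
  apply ha
  have h3 : ∀ l, ∃ z : R', e l * j (e' k0 * z) = 0 ∧ (e' k0 * z = 0 → x = 0) := by
    intro l
    rcases abssub_dich j he he' l k0 with hl | hl
    · refine ⟨1, by rw [mul_one]; exact hl, fun h => ?_⟩
      rw [mul_one] at h
      exact absurd h (he'.ne k0)
    · obtain ⟨τ, τ', hτ, hττ⟩ := htr i0 l
      have h4 : e l * j (τ' x) = 0 := by
        rw [← hττ, ← hτ, ← map_mul, h2, map_zero]
      have h5 : e l * j (τ' (e' k0)) = e l := by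
        rw [← hττ, ← hτ, ← map_mul, h1]
      have h6 : e' k0 * τ' (e' k0) = e' k0 := by
        refine (abssub_idem he' (by rw [← map_mul, he'.idem]) k0).resolve_left fun h => ?_
        apply he.ne l
        calc e l = e l * j (e' k0) * j (τ' (e' k0)) := by rw [hl, h5]
          _ = e l * j (e' k0 * τ' (e' k0)) := by rw [map_mul, mul_assoc]
          _ = 0 := by rw [h, map_zero, mul_zero]
      have h7 : τ' (e' k0) = e' k0 := by
        rcases abssub_idem he' (f := τ'.symm (e' k0)) (by rw [← map_mul, he'.idem]) k0 with h | h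
        · exfalso
          apply he'.ne k0
          have h8 := congrArg τ' h
          rw [map_mul, AlgEquiv.apply_symm_apply, map_zero, mul_comm, h6] at h8
          exact h8
        · have h8 := congrArg τ' h
          rw [map_mul, AlgEquiv.apply_symm_apply, mul_comm, h6] at h8
          exact h8.symm
      refine ⟨τ' x, ?_, fun h => ?_⟩
      · rw [map_mul, mul_left_comm, h4, mul_zero]
      · have h9 : τ' x = 0 := by
          calc τ' x = τ' (e' k0 * x) := by rw [hxx]
            _ = e' k0 * τ' x := by rw [map_mul, h7]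
            _ = 0 := h
        exact (map_eq_zero_iff τ' τ'.injective).1 h9
  choose z hz1 hz2 using h3
  have h4 : e' k0 * ∏ l, z l = 0 := by
    apply hj
    rw [map_zero]
    apply abssub_zero he
    intro l
    rw [← Finset.mul_prod_erase Finset.univ z (Finset.mem_univ l), ← mul_assoc, map_mul j,
      ← mul_assoc, hz1 l, zero_mul]
  obtain ⟨l, -, hl⟩ := abssub_prod he' k0 z Finset.univ h4
  exact hz2 l hl

/-- Over every component `i` there is exactly one component `k` of the subalgebra. -/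
theorem tower_over (he : Dec R r e) (he' : Dec R' r' e') (i : Fin r) :
    ∃ k, e i * j (e' k) = e i := by
  by_contra hcon
  push Not at hcon
  apply he.ne i
  rw [← mul_one (e i), ← map_one j, ← he'.sum, map_sum, Finset.mul_sum]
  exact Finset.sum_eq_zero fun k _ => (abssub_dich j he he' i k).resolve_right (hcon k)

theorem tower_under (hj : Function.Injective j) (he : Dec R r e) (he' : Dec R' r' e')
    (k : Fin r') : ∃ i, e i * j (e' k) = e i := by
  by_contra hcon
  push Not at hcon
  apply he'.ne k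
  apply hj
  rw [map_zero]
  exact abssub_zero he fun i => (abssub_dich j he he' i k).resolve_right (hcon i)

/-- The idempotents of the subalgebra are permuted transitively. -/
theorem tower_perm (hj : Function.Injective j) (he : Dec R r e) (he' : Dec R' r' e')
    (P : (R ≃ₐ[K] R) → Prop)
    (htr : ∀ i l, ∃ (τ : R ≃ₐ[K] R) (τ' : R' ≃ₐ[K] R'), τ (e i) = e l ∧
      (∀ a, τ (j a) = j (τ' a)) ∧ P τ) (k1 k2 : Fin r') :
    ∃ τ : R ≃ₐ[K] R, τ (j (e' k1)) = j (e' k2) ∧ P τ := by
  obtain ⟨i1, hi1⟩ := tower_under j hj he he' k1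
  obtain ⟨i2, hi2⟩ := tower_under j hj he he' k2
  obtain ⟨τ, τ', h1, h2, h3⟩ := htr i1 i2
  refine ⟨τ, ?_, h3⟩
  rw [h2]
  congr 1
  obtain ⟨k3, hk3⟩ := dec_perm he' τ' k1
  rw [hk3]
  by_contra hne
  have hne' : k3 ≠ k2 := fun h => hne (by rw [h])
  have h4 : e i2 * j (e' k3) = e i2 := by
    rw [← hk3, ← h2, ← h1, ← map_mul, hi1]
  apply he.ne i2
  calc e i2 = e i2 * j (e' k3) * j (e' k2) := by rw [h4, hi2]
    _ = e i2 * j (e' k3 * e' k2) := by rw [map_mul, mul_assoc]
    _ = 0 := by rw [he'.orth k3 k2 hne', map_zero, mul_zero]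

/-- For an idempotent `e`, `(1 - e) = {a | e a = 0}`. -/
theorem idem_span {e : R} (he : e * e = e) (a : R) : a ∈ Ideal.span {1 - e} ↔ e * a = 0 := by
  rw [Ideal.mem_span_singleton]
  constructor
  · rintro ⟨b, rfl⟩
    rw [← mul_assoc, mul_sub, mul_one, he, sub_self, zero_mul]
  · intro h
    exact ⟨a, by rw [sub_mul, one_mul, h, sub_zero]⟩

/-- The growth of the restriction of `V ^ n` to the component `e`. -/
theorem cut_growth (hhilb : S_hilb.{w}) {e : R} (he : e * e = e) (V : Submodule K R)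
    [Module.Finite K V] (h1V : (1 : R) ∈ V) (N : ℕ) (hN : Module.finrank K V ≤ N + 1) (n : ℕ) :
    (n + 1) * Module.finrank K (cut_mul e (V ^ (n + 1))) ≤
      (n + 1 + N) * Module.finrank K (cut_mul e (V ^ n)) := by
  have hI := fun a => idem_span he a
  have h4 : ∀ n, comp K e (V ^ n) = (comp K e V) ^ n := fun n => Submodule.map_pow _ _ _
  have h5 : (1 : R ⧸ Ideal.span {1 - e}) ∈ comp K e V :=
    ⟨1, h1V, map_one (Ideal.Quotient.mkₐ K (Ideal.span {1 - e}))⟩
  have : Module.Finite K (comp K e V) := Module.Finite.map _ _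
  have h6 : Module.finrank K (comp K e V) ≤ N + 1 := (Submodule.finrank_map_le _ _).trans hN
  have h7 := hhilb K _ (comp K e V) h5 N h6 n
  rw [← h4, ← h4] at h7
  rwa [cut_finrank e he hI, cut_finrank e he hI] at h7

/-- Several orthogonal pieces: `∑ dim e'_k F ≤ dim F' F` if `F'` contains multiples of the
`e'_k` by units. -/
theorem cut_sum_le {r' : ℕ} (e' : Fin r' → R) (hid : ∀ k, e' k * e' k = e' k)
    (hor : ∀ k l, k ≠ l → e' k * e' l = 0) (F F' : Submodule K R) [Module.Finite K F]
    [Module.Finite K F'] (δ : Fin r' → R) (hδ : ∀ k, IsUnit (δ k))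
    (hF' : ∀ k, δ k * e' k ∈ F') :
    ∑ k, Module.finrank K (cut_mul (e' k) F) ≤ Module.finrank K ↥(F' * F) := by
  have : Module.Finite K ↥(F' * F) := Module.Finite.iff_fg.2
    (Submodule.FG.mul (Module.Finite.iff_fg.1 inferInstance) (Module.Finite.iff_fg.1 inferInstance))
  have : ∀ i, Module.Finite K (cut_mul (e' i) F) := fun i => Module.Finite.map _ _
  rw [← Module.finrank_pi_fintype]
  have hle : ∀ k, ∀ x ∈ cut_mul (e' k) F, δ k * x ∈ F' * F := by
    rintro k _ ⟨a, ha, rfl⟩
    rw [LinearMap.mulLeft_apply, ← mul_assoc]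
    exact Submodule.mul_mem_mul (hF' k) ha
  let g : (∀ k, cut_mul (e' k) F) →ₗ[K] ↥(F' * F) :=
    ∑ k, ((LinearMap.mulLeft K (δ k)).restrict (hle k)) ∘ₗ LinearMap.proj k
  refine LinearMap.finrank_le_finrank_of_injective (f := g) ?_
  rw [← LinearMap.ker_eq_bot, LinearMap.ker_eq_bot']
  intro x h
  have h1 : ∑ k, δ k * (x k : R) = 0 := by
    have h2 := congrArg (Submodule.subtype (F' * F)) h
    rw [map_zero] at h2
    rw [← h2]
    simp only [g, LinearMap.sum_apply, map_sum, LinearMap.comp_apply, LinearMap.proj_apply]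
    rfl
  funext k
  apply Subtype.ext
  change (x k : R) = 0
  have hx : ∀ i, ∃ a, (x i : R) = e' i * a := by
    intro i
    obtain ⟨a, _, ha⟩ := (x i).2
    exact ⟨a, ha.symm⟩
  have h3 : e' k * ∑ i, δ i * (x i : R) = δ k * (x k : R) := by
    rw [Finset.mul_sum, Finset.sum_eq_single k]
    · obtain ⟨a, ha⟩ := hx k
      rw [ha, mul_left_comm, ← mul_assoc (e' k), hid]
    · intro i _ hij
      obtain ⟨a, ha⟩ := hx i
      rw [ha, mul_left_comm, ← mul_assoc (e' k), hor k i hij.symm, zero_mul, mul_zero]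
    · intro h
      exact absurd (Finset.mem_univ k) h
  rw [h1, mul_zero] at h3
  exact (hδ k).mul_right_eq_zero.1 h3.symm

theorem cut_mul_perm {e1 e2 : R} (F : Submodule K R) (τ : R ≃ₐ[K] R) (hτ : τ e1 = e2)
    (hF : F.map τ.toLinearMap = F) :
    Module.finrank K (cut_mul e1 F) = Module.finrank K (cut_mul e2 F) := by
  have h : (cut_mul e1 F).map τ.toLinearEquiv.toLinearMap = cut_mul e2 F := by
    apply le_antisymm
    · rintro _ ⟨_, ⟨a, ha, rfl⟩, rfl⟩
      refine ⟨τ a, ?_, ?_⟩
      · rw [← hF]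
        exact ⟨a, ha, rfl⟩
      · change e2 * τ a = τ (e1 * a)
        rw [map_mul, hτ]
    · rintro _ ⟨a, ha, rfl⟩
      rw [SetLike.mem_coe, ← hF] at ha
      obtain ⟨b, hb, rfl⟩ := ha
      refine ⟨e1 * b, ⟨b, hb, rfl⟩, ?_⟩
      change τ (e1 * b) = e2 * τ b
      rw [map_mul, hτ]
  rw [← h]
  exact (LinearEquiv.finrank_map_eq τ.toLinearEquiv (cut_mul e1 F)).symm

/-- The evaluation factors through the component on which it is `1`. -/
theorem ev_cut {e : R} (L : Type) [Field L] [Algebra K L] (ev : R →ₐ[K] L) (hev : ev e = 1)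
    (F : Submodule K R) [Module.Finite K F] :
    Module.finrank K (F.map ev.toLinearMap) ≤ Module.finrank K (cut_mul e F) := by
  have : Module.Finite K (cut_mul e F) := Module.Finite.map _ _
  have h : F.map ev.toLinearMap = (cut_mul e F).map ev.toLinearMap := by
    unfold cut_mul
    rw [← Submodule.map_comp]
    congr 1
    ext a
    change ev a = ev (e * a)
    rw [map_mul, hev, one_mul]
  rw [h]
  exact Submodule.finrank_map_le _ _

end Tower

/-! ### elementary inequalities -/

/-- Iterated growth. -/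
theorem growth_iter (D : ℕ → ℕ) (N : ℕ) (h : ∀ n, (n + 1) * D (n + 1) ≤ (n + 1 + N) * D n)
    (n m : ℕ) : (D (n + m) : ℝ) ≤ (1 + (N : ℝ) / (n + 1)) ^ m * D n := by
  induction m with
  | zero => simp
  | succ m ih =>
    have h1 : ((n + m + 1 : ℕ) : ℝ) * D (n + m + 1) ≤ ((n + m + 1 + N : ℕ) : ℝ) * D (n + m) := by
      exact_mod_cast h (n + m)
    push_cast at h1
    have h2 : (0 : ℝ) < n + m + 1 := by positivity
    have h3 : (D (n + m + 1) : ℝ) ≤ (1 + (N : ℝ) / (n + m + 1)) * D (n + m) := by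
      have : (1 + (N : ℝ) / (n + m + 1)) * D (n + m) =
          ((n + m + 1 + N : ℝ) * D (n + m)) / (n + m + 1) := by
        field_simp
      rw [this, le_div_iff₀ h2]
      linarith
    have h4 : (1 + (N : ℝ) / (n + m + 1)) ≤ 1 + (N : ℝ) / (n + 1) := by
      have : (N : ℝ) / (n + m + 1) ≤ (N : ℝ) / (n + 1) := by
        apply div_le_div_of_nonneg_left (by positivity) (by positivity)
        have : (0 : ℝ) ≤ m := by positivity
        linarith
      linarith
    calc (D (n + (m + 1)) : ℝ) ≤ (1 + (N : ℝ) / (n + m + 1)) * D (n + m) := h3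
      _ ≤ (1 + (N : ℝ) / (n + 1)) * D (n + m) := by
        exact mul_le_mul_of_nonneg_right h4 (by positivity)
      _ ≤ (1 + (N : ℝ) / (n + 1)) * ((1 + (N : ℝ) / (n + 1)) ^ m * D n) := by
        exact mul_le_mul_of_nonneg_left ih (by positivity)
      _ = (1 + (N : ℝ) / (n + 1)) ^ (m + 1) * D n := by ring

end

end Pool.Agent.Lib.MP_ae0f86_nt
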