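import Pool.Agent.Lib.MP_ae0f86_nt.D.AsmD
import Pool.Agent.Lib.MP_ae0f86_nt.G.Tower

/-!
# MP_ae0f86_nt : the catalysis inequality and uniform estimates, for objects
-/

universe w v u

open CategoryTheory CategoryTheory.Limits Opposite MonoidalCategory

namespace Pool.Agent.Lib.MP_ae0f86_nt

noncomputable section

attribute [local instance] CategoryTheory.Abelian.hasFiniteBiproducts

section Aux

variable {A : Type u} [Category.{v} A] [Abelian A] [MonoidalCategory A] [SymmetricCategory A]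

omit [MonoidalCategory A] [SymmetricCategory A] in
theorem g_fpMap_sym {K : Type} [Field K] (H : A ⥤ ModuleCat.{0} K)
    (HB : A ⥤ ModuleCat.{0} ℚ) {S S' : A → Prop} (h : ∀ N, S N → S' N) {N : A} (hN : S N)
    (ω : H.obj N) (σ : Module.Dual ℚ (HB.obj N)) :
    fpMap H HB h (sym H HB hN ω σ) = sym H HB (h N hN) ω σ := by
  unfold fpMap sym
  rw [Submodule.mapQ_apply]
  simp [symbMap]

theorem g_evAlg_asym {K : Type} [Field K] [Algebra K ℂ]
    {HdR : A ⥤ ModuleCat.{0} K}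
    {HB : A ⥤ ModuleCat.{0} ℚ} [FibreFunctor HdR] [FibreFunctor HB] (c : Comparison HdR HB)
    (S : A → Prop) {N : A} (hN : S N) (ω : HdR.obj N) (σ : Module.Dual ℚ (HB.obj N)) :
    c.evAlg S (asym HdR HB hN ω σ) = c.per N ω σ :=
  MvPolynomial.aeval_X (R := K) (fun s : Symb HdR HB S => c.per s.N s.ω s.σ) ⟨N, hN, ω, σ⟩

/-- The homomorphism `PerAlg S → PerAlg S'` for `S ⊆ S'`. -/
theorem g_map {K : Type} [Field K] (H : A ⥤ ModuleCat.{0} K)
    (HB : A ⥤ ModuleCat.{0} ℚ) [FibreFunctor H] [FibreFunctor HB]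
    {S S' : A → Prop} (h : ∀ N, S N → S' N) :
    ∃ j : PerAlg H HB S →ₐ[K] PerAlg H HB S', ∀ {N : A} (hN : S N) (ω : H.obj N)
      (σ : Module.Dual ℚ (HB.obj N)), j (asym H HB hN ω σ) = asym H HB (h N hN) ω σ := by
  obtain ⟨a1, a2, a3, a4, a5, -, -⟩ := a_arel H HB S'
  obtain ⟨-, b1, b2, -⟩ := a_algrel (A := A) H HB S'
  let P : Pt H HB S (PerAlg H HB S') :=
    { p := fun hN ω σ => asym H HB (h _ hN) ω σ
      add_left := fun hN ω ω' σ => a1 (h _ hN) ω ω' σ
      smul_left := fun hN a ω σ => a2 (h _ hN) a ω σ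
      add_right := fun hN ω σ σ' => a3 (h _ hN) ω σ σ'
      smul_right := fun hN q ω σ => a4 (h _ hN) q ω σ
      nat := fun hN hN' f ω σ' => a5 (h _ hN) (h _ hN') f ω σ'
      mul := fun hM hN hMN ω η σ τ => (b1 (h _ hM) (h _ hN) (h _ hMN) ω η σ τ).symm
      one := fun h1 σ hσ => b2 (h _ h1) σ hσ }
  obtain ⟨f, hf⟩ := p_points H HB S (PerAlg H HB S') P
  exact ⟨f, fun hN ω σ => hf hN ω σ⟩

theorem g_sub_equiv {K R R' : Type*} [Field K] [CommRing R] [CommRing R']
    [Algebra K R] [Algebra K R'] (j : R' →ₐ[K] R) (hj : Function.Injective j)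
    (τ : R ≃ₐ[K] R) (h1 : ∀ a, τ (j a) ∈ j.range) (h2 : ∀ a, ∃ b, j a = τ (j b)) :
    ∃ τ' : R' ≃ₐ[K] R', ∀ a, τ (j a) = j (τ' a) := by
  choose f hf using fun a => h1 a
  let F : R' →ₐ[K] R' := AlgHom.ofLinearMap
    { toFun := f
      map_add' := fun x y => hj (by
        have := hf (x + y)
        rw [map_add]
        erw [this, hf x, hf y]
        rw [map_add, map_add])
      map_smul' := fun k x => hj (by
        have := hf (k • x)
        rw [RingHom.id_apply, map_smul]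
        erw [this, hf x]
        rw [map_smul, map_smul]) }
    (hj (by
      have := hf 1
      show j (f 1) = j 1
      erw [this]
      rw [map_one, map_one]))
    (fun x y => hj (by
      have := hf (x * y)
      show j (f (x * y)) = j (f x * f y)
      rw [map_mul]
      erw [this, hf x, hf y]
      rw [map_mul, map_mul]))
  have hF : ∀ a, j (F a) = τ (j a) := fun a => hf a
  have hinj : Function.Injective F := by
    intro a b hab
    have := congrArg j hab
    rw [hF, hF] at this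
    exact hj (τ.injective this)
  have hsurj : Function.Surjective F := by
    intro a
    obtain ⟨b, hb⟩ := h2 a
    exact ⟨b, hj (by rw [hF, ← hb])⟩
  exact ⟨AlgEquiv.ofBijective F ⟨hinj, hsurj⟩, fun a => (hF a).symm⟩

end Aux

section Embed

variable {A : Type u} [Category.{v} A] [Abelian A] [Linear ℚ A] [MonoidalCategory A]
  [SymmetricCategory A] [RigidCategory A] {HdR : A ⥤ ModuleCat.{0} QBar}
  {HB : A ⥤ ModuleCat.{0} ℚ} [FibreFunctor HdR] [FibreFunctor HB]

/-- The inclusion of the formal period algebra of `⟨M⟩` into the one of `⟨T⟩`, for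
`M ∈ ⟨T⟩`. -/
theorem g_embed (c : Comparison HdR HB) {T M : A} (hTM : Gen T M) {r : ℕ}
    {e : Fin r → PerAlg HdR HB (Gen T)} (he : Dec (PerAlg HdR HB (Gen T)) r e) :
    ∃ j : PerAlg HdR HB (Gen M) →ₐ[QBar] PerAlg HdR HB (Gen T),
      Function.Injective j ∧
      (∀ {N : A} (hN : Gen M N) (hN' : Gen T N), (fw HdR HB hN).map j.toLinearMap =
        fw HdR HB hN') ∧
      (∀ x, c.evAlg (Gen T) (j x) = c.evAlg (Gen M) x) ∧
      (∀ i l, ∃ (τ : PerAlg HdR HB (Gen T) ≃ₐ[QBar] PerAlg HdR HB (Gen T))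
        (τ' : PerAlg HdR HB (Gen M) ≃ₐ[QBar] PerAlg HdR HB (Gen M)),
        τ (e i) = e l ∧ (∀ a, τ (j a) = j (τ' a)) ∧
          ∀ {W : A} (hW : Gen T W), (fw HdR HB hW).map τ.toLinearMap = fw HdR HB hW) := by
  have h13 : S_genclosed (A := A) := a_genclosed
  have h12 : S_algrel (A := A) := a_algrel
  have h10 : S_fpring (A := A) := a_fpring
  have hsub : ∀ N, Gen M N → Gen T N := fun N hN => h13.2.2.2 T M N hTM hN
  obtain ⟨j, hj⟩ := g_map HdR HB hsub
  have hTc := h13.1 T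
  have hMc := h13.1 M
  -- every element of `R'` is a symbol
  have hsym : ∀ x : PerAlg HdR HB (Gen M), ∃ (N : A) (hN : Gen M N) (ω : HdR.obj N)
      (σ : Module.Dual ℚ (HB.obj N)), x = asym HdR HB hN ω σ ∧
        x = toPerAlg HdR HB (Gen M) (sym HdR HB hN ω σ) := by
    intro x
    obtain ⟨y, rfl⟩ := (h10 HdR HB (Gen M) hMc).2 x
    obtain ⟨N, hN, ω, σ, rfl⟩ := a_single HdR HB (Gen M) hMc.toClosed y
    exact ⟨N, hN, ω, σ, (h12 HdR HB (Gen M)).1 hN ω σ, rfl⟩
  have hinj : Function.Injective j := by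
    rw [injective_iff_map_eq_zero]
    intro x hx
    obtain ⟨N, hN, ω, σ, hx1, hx2⟩ := hsym x
    rw [hx1, hj hN ω σ, ← (h12 HdR HB (Gen T)).1 (hsub N hN) ω σ] at hx
    have h17 : sym HdR HB (hsub N hN) ω σ = 0 :=
      (h10 HdR HB (Gen T) hTc).1 (by rw [hx, map_zero])
    have hher : Function.Injective (fpMap HdR HB hsub) :=
      a_heredity HdR HB (FibreFunctor.finite (H := HB)) (Gen M) (Gen T) hsub hMc.toClosed
        hTc.toClosed
    have h18 : sym HdR HB hN ω σ = 0 := by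
      apply hher
      rw [g_fpMap_sym, h17, map_zero]
    rw [hx2, h18, map_zero]
  have hfw0 : ∀ {N : A} (hN : Gen M N) (hN' : Gen T N), (fw HdR HB hN).map j.toLinearMap =
      fw HdR HB hN' := by
    intro N hN hN'
    unfold fw
    rw [Submodule.map_span]
    congr 1
    ext x
    constructor
    · rintro ⟨_, ⟨ω, σ, rfl⟩, rfl⟩
      exact ⟨ω, σ, hj hN ω σ⟩
    · rintro ⟨ω, σ, rfl⟩
      exact ⟨_, ⟨ω, σ, rfl⟩, hj hN ω σ⟩
  have hev : ∀ x, c.evAlg (Gen T) (j x) = c.evAlg (Gen M) x := by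
    intro x
    obtain ⟨N, hN, ω, σ, hx1, -⟩ := hsym x
    rw [hx1, hj hN ω σ, g_evAlg_asym, g_evAlg_asym]
  have hfw : ∀ {N : A} (hN : Gen M N), fw HdR HB (hsub N hN) ≤
      Subalgebra.toSubmodule j.range := by
    intro N hN
    rw [fw, Submodule.span_le]
    rintro _ ⟨ω, σ, rfl⟩
    exact ⟨asym HdR HB hN ω σ, hj hN ω σ⟩
  refine ⟨j, hinj, hfw0, hev, ?_⟩
  intro i l
  obtain ⟨τ, hτ, hτfw⟩ := a_perm HdR HB T r e he i l
  have hmem : ∀ {N : A} (hN : Gen M N) (ω : HdR.obj N) (σ : Module.Dual ℚ (HB.obj N)),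
      asym HdR HB (hsub N hN) ω σ ∈ fw HdR HB (hsub N hN) :=
    fun hN ω σ => Submodule.subset_span ⟨ω, σ, rfl⟩
  obtain ⟨τ', hτ'⟩ := g_sub_equiv j hinj τ (by
    intro a
    obtain ⟨N, hN, ω, σ, ha, -⟩ := hsym a
    rw [ha, hj hN ω σ]
    apply hfw hN
    rw [← hτfw (hsub N hN)]
    exact ⟨_, hmem hN ω σ, rfl⟩) (by
    intro a
    obtain ⟨N, hN, ω, σ, ha, -⟩ := hsym a
    have h19 := hmem hN ω σ
    rw [← hτfw (hsub N hN)] at h19
    obtain ⟨y, hy, hy2⟩ := h19
    obtain ⟨b, hb⟩ := hfw hN hy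
    refine ⟨b, ?_⟩
    rw [ha, hj hN ω σ, ← hy2]
    show τ y = τ (j b)
    rw [← hb]
    rfl)
  exact ⟨τ, τ', hτ, hτ', hτfw⟩

end Embed

section Cats

variable {A : Type u} [Category.{v} A] [Abelian A] [Linear ℚ A] [MonoidalCategory A]
  [SymmetricCategory A] [RigidCategory A] {HdR : A ⥤ ModuleCat.{0} QBar}
  {HB : A ⥤ ModuleCat.{0} ℚ} [FibreFunctor HdR] [FibreFunctor HB]

/-- The catalysis inequality: if not all predicted periods of `U` are independent, then for every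
`W` the periods of `U ⊗ W` miss the predicted number by at least half of the number predicted for
`W` (by the whole number if `X(U ⊞ W)` is connected). -/
theorem catalysis (c : Comparison HdR HB) (U W : A) (hU : Pf c U < Nf HB U) :
    2 * Pf c (U ⊗ W) + Nf HB W ≤ 2 * Nf HB (U ⊗ W) ∧
      (ConnectedSpace (PrimeSpectrum (PerAlg HdR HB (Gen (U ⊞ W)))) →
        Pf c (U ⊗ W) + Nf HB W ≤ Nf HB (U ⊗ W)) := by
  set M : A := U ⊞ W with hM
  have hMU : Gen M U := Gen.sub (biprod.inl : U ⟶ U ⊞ W) Gen.base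
  have hMW : Gen M W := Gen.sub (biprod.inr : W ⟶ U ⊞ W) Gen.base
  have hMUW : Gen M (U ⊗ W) := Gen.tensor hMU hMW
  obtain ⟨r, e, hdec⟩ := a_pdec HdR HB M
  have : Module.Finite QBar (fw HdR HB hMU) := a_fwfin HdR HB hMU
  have : Module.Finite QBar (fw HdR HB hMW) := a_fwfin HdR HB hMW
  have hgc : S_genclosed (A := A) := a_genclosed
  have hT : TClosed (Gen M) := hgc.1 M
  have hN : ∀ {W : A} (hW : Gen M W), Module.finrank QBar (fw HdR HB hW) =
      Nf HB W := fun hW => a_fwdim c hT hW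
  have hP : ∀ {W : A} (hW : Gen M W), (fw HdR HB hW).map (c.evAlg (Gen M)).toLinearMap =
      Submodule.span QBar (c.Per W) := fun hW => a_fwev c hW
  have hprod : fw HdR HB hMUW = fw HdR HB hMU * fw HdR HB hMW :=
    (a_fwprod HdR HB).1 hMU hMW hMUW
  obtain ⟨f, hf, hf0, hfe⟩ : ∃ f ∈ fw HdR HB hMU, f ≠ 0 ∧ c.evAlg (Gen M) f = 0 := by
    by_contra hcon
    push Not at hcon
    have hinj : Function.Injective ((c.evAlg (Gen M)).toLinearMap.domRestrict
        (fw HdR HB hMU)) := by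
      rw [← LinearMap.ker_eq_bot, LinearMap.ker_eq_bot']
      rintro ⟨f, hf⟩ h0
      by_contra hne
      exact hcon f hf (fun h => hne (Subtype.ext h)) h0
    have h1 := LinearMap.finrank_range_of_inj hinj
    rw [LinearMap.range_domRestrict, hP hMU, hN hMU] at h1
    exact absurd h1 (by
      change Pf c U ≠ Nf HB U
      omega)
  have h1 := catal (K := QBar) hdec d_evcut (fw HdR HB hMU) (fw HdR HB hMW) (fun i j => by
    obtain ⟨τ, h1, h2⟩ := a_perm HdR HB M r e hdec i j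
    exact ⟨τ, h1, h2 hMU, h2 hMW⟩) ℂ (c.evAlg (Gen M)) f hf hf0 hfe
  rw [← hprod, hP hMUW, hN hMUW, hN hMW] at h1
  refine ⟨h1.1, fun h => h1.2 ?_⟩
  exact ((d_comps _ r e hdec).2.2).1 h

/-- The growth of the predicted number. -/
theorem Nf_growth (c : Comparison HdR HB) (T : A) (hT : Lin T (𝟙_ A)) (N : ℕ)
    (hN : Nf HB T ≤ N + 1) (n : ℕ) :
    (n + 1) * Nf HB (tpow T (n + 1)) ≤ (n + 1 + N) * Nf HB (tpow T n) := by
  have hgc : S_genclosed (A := A) := a_genclosed
  have hTc : TClosed (Gen T) := hgc.1 T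
  have hNf : ∀ {W : A} (hW : Gen T W), Module.finrank QBar (fw HdR HB hW) =
      Nf HB W := fun hW => a_fwdim c hTc hW
  obtain ⟨h1V, hgl, hpow⟩ := a_fwgen2 HdR HB T hT
  have : Module.Finite QBar (fw HdR HB (S := Gen T) (W := T) Gen.base) :=
    a_fwfin HdR HB Gen.base
  have h := d_hilb QBar _ (fw HdR HB (S := Gen T) (W := T) Gen.base) h1V N
    (by rw [hNf Gen.base]; exact hN) n
  rwa [← hpow, ← hpow, hNf, hNf] at h

/-- If the dimension formula fails for `M`, then it fails uniformly: there is `m` such that for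
all `T` which contain `M` as a subquotient of a power the periods of `T^{⊗ (n + m)}` miss the
predicted number by at least the number predicted for `T^{⊗ n}`. -/
theorem dim_fail (c : Comparison HdR HB) (M : A) (hM1 : Lin M (𝟙_ A)) (hD : ¬ DimFormula c M) :
    ∃ m : ℕ, ∀ T : A, Lin T M → Lin T (𝟙_ A) → ∀ n : ℕ,
      Pf c (tpow T (n + m)) + Nf HB (tpow T n) ≤ Nf HB (tpow T (n + m)) := by
  have hgc : S_genclosed (A := A) := a_genclosed
  obtain ⟨r', e', he'⟩ := a_pdec HdR HB M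
  obtain ⟨k0, hk0⟩ := (d_evcut QBar (PerAlg HdR HB (Gen M)) r' e' he' ℂ (c.evAlg (Gen M))).1
  obtain ⟨-, g', t', hg', hgi', ht', -, htr'⟩ := a_dims c M r' e' he'
  obtain ⟨a, ha0, ha⟩ : ∃ a, c.evAlg (Gen M) (e' k0 * a) = 0 ∧ e' k0 * a ≠ 0 := by
    by_contra hcon
    push Not at hcon
    apply hD
    have hm := e_injdim2 d_decdom QBar (PerAlg HdR HB (Gen M)) r' e' he' ℂ (c.evAlg (Gen M)) k0
      hk0 hcon
    rw [ht', (hgi' k0).1] at hm
    unfold DimFormula
    rw [hg', htr', map_natCast, ← hm]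
    rfl
  obtain ⟨h1V, ⟨δ, hδ, -, hloc⟩, hpow⟩ := a_fwgen2 HdR HB M hM1
  set x := e' k0 * a + (1 - e' k0) with hx
  obtain ⟨p, m, hpm⟩ := hloc x
  refine ⟨m, fun T hTM hT1 n => ?_⟩
  have hGTM : Gen T M := hgc.2.2.1 _ _ hTM
  obtain ⟨r, e, he⟩ := a_pdec HdR HB T
  obtain ⟨j, hj, hjfw, hjev, hjtr⟩ := g_embed c hGTM he
  have hTc : TClosed (Gen T) := hgc.1 T
  have hN : ∀ {W : A} (hW : Gen T W), Module.finrank QBar (fw HdR HB hW) =
      Nf HB W := fun hW => a_fwdim c hTc hW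
  have hP : ∀ {W : A} (hW : Gen T W), (fw HdR HB hW).map (c.evAlg (Gen T)).toLinearMap =
      Submodule.span QBar (c.Per W) := fun hW => a_fwev c hW
  obtain ⟨-, -, hpowT⟩ := a_fwgen2 HdR HB T hT1
  set V := fw HdR HB (S := Gen T) (W := T) Gen.base with hV
  have hVfin : Module.Finite QBar V := a_fwfin HdR HB Gen.base
  have hVn : ∀ n, Module.Finite QBar ↥(V ^ n) := fun n =>
    Module.Finite.iff_fg.2 (Submodule.FG.pow (Module.Finite.iff_fg.1 inferInstance) n)
  have hle : (fw HdR HB (S := Gen M) (W := M) Gen.base).map j.toLinearMap ≤ V := by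
    rw [hjfw Gen.base hGTM]
    exact a_fwlin HdR HB hTc.toClosed hGTM Gen.base hTM
  have hF : j (δ ^ p * x) ∈ V ^ m := by
    have h1 : j (δ ^ p * x) ∈
        ((fw HdR HB (S := Gen M) (W := M) Gen.base) ^ m).map j.toLinearMap := ⟨_, hpm, rfl⟩
    rw [Submodule.map_pow] at h1
    exact pow_le_pow_left' hle m h1
  have hF0 : c.evAlg (Gen T) (j (δ ^ p * x)) = 0 := by
    rw [hjev, map_mul, hx, map_add, ha0, map_sub, hk0, map_one, sub_self, add_zero, mul_zero]
  have hne : ∀ k, e' k * (δ ^ p * x) ≠ 0 := by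
    intro k h0
    rw [mul_left_comm] at h0
    have h1 : e' k * x = 0 := (hδ.pow p).mul_right_eq_zero.1 h0
    by_cases hk : k = k0
    · subst hk
      rw [hx, mul_add, ← mul_assoc, he'.idem, mul_sub, mul_one, he'.idem, sub_self,
        add_zero] at h1
      exact ha h1
    · rw [hx, mul_add, ← mul_assoc, he'.orth k k0 hk, zero_mul, mul_sub, mul_one,
        he'.orth k k0 hk, sub_zero, zero_add] at h1
      exact he'.ne k h1
  have hnz : ∀ i, e i * j (δ ^ p * x) ≠ 0 := by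
    intro i
    obtain ⟨k, hk⟩ := tower_over j he he' i
    exact tower_nzd j hj he he' (fun i l => by
      obtain ⟨τ, τ', h1, h2, -⟩ := hjtr i l
      exact ⟨τ, τ', h1, h2⟩) i k hk _ (hne k)
  have h1 := ev_key (V ^ m) (V ^ n) ℂ (c.evAlg (Gen T)) _ hF hF0
  have h2 := full_mul he (V ^ n) _ hnz
  have h3 := (Nat.add_le_add_left h2 _).trans h1
  rw [← pow_add, add_comm m n, ← hpowT (n + m), ← hpowT n, hP, hN, hN] at h3
  exact h3

/-- Uniform upper bound by the number of components. -/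
theorem comp_bound (c : Comparison HdR HB) (M : A) (hM1 : Lin M (𝟙_ A)) :
    ∃ m : ℕ, ∀ T : A, Lin T M → Lin T (𝟙_ A) → ∃ D : ℕ → ℕ,
      (∀ n, Pf c (tpow T n) ≤ D n) ∧
      (∀ n, ncomp HdR HB M * D n ≤ Nf HB (tpow T (n + m))) ∧
      (∀ N, Nf HB T ≤ N + 1 → ∀ n, (n + 1) * D (n + 1) ≤ (n + 1 + N) * D n) := by
  have hgc : S_genclosed (A := A) := a_genclosed
  obtain ⟨r', e', he'⟩ := a_pdec HdR HB M
  obtain ⟨k0, hk0⟩ := (d_evcut QBar (PerAlg HdR HB (Gen M)) r' e' he' ℂ (c.evAlg (Gen M))).1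
  have hr' : ncomp HdR HB M = r' := (d_comps _ r' e' he').2.1
  obtain ⟨h1V, ⟨δ, hδ, -, hloc⟩, hpow⟩ := a_fwgen2 HdR HB M hM1
  have hmono : Monotone (fun n : ℕ => (fw HdR HB (S := Gen M) (W := M) Gen.base) ^ n) := by
    refine monotone_nat_of_le_succ fun n => ?_
    intro x hx
    have := Submodule.mul_mem_mul hx h1V
    rwa [mul_one, ← pow_succ] at this
  choose p f hf using fun k => hloc (e' k)
  set m := Finset.univ.sup f with hm
  have hpm : ∀ k, δ ^ p k * e' k ∈ (fw HdR HB (S := Gen M) (W := M) Gen.base) ^ m := fun k =>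
    hmono (Finset.le_sup (Finset.mem_univ k)) (hf k)
  refine ⟨m, fun T hTM hT1 => ?_⟩
  have hGTM : Gen T M := hgc.2.2.1 _ _ hTM
  obtain ⟨r, e, he⟩ := a_pdec HdR HB T
  obtain ⟨j, hj, hjfw, hjev, hjtr⟩ := g_embed c hGTM he
  have hTc : TClosed (Gen T) := hgc.1 T
  have hN : ∀ {W : A} (hW : Gen T W), Module.finrank QBar (fw HdR HB hW) =
      Nf HB W := fun hW => a_fwdim c hTc hW
  have hP : ∀ {W : A} (hW : Gen T W), (fw HdR HB hW).map (c.evAlg (Gen T)).toLinearMap =
      Submodule.span QBar (c.Per W) := fun hW => a_fwev c hW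
  obtain ⟨h1V2, -, hpowT⟩ := a_fwgen2 HdR HB T hT1
  set V := fw HdR HB (S := Gen T) (W := T) Gen.base with hV
  have hVfin : Module.Finite QBar V := a_fwfin HdR HB Gen.base
  have hVn : ∀ n, Module.Finite QBar ↥(V ^ n) := fun n =>
    Module.Finite.iff_fg.2 (Submodule.FG.pow (Module.Finite.iff_fg.1 inferInstance) n)
  have hle : (fw HdR HB (S := Gen M) (W := M) Gen.base).map j.toLinearMap ≤ V := by
    rw [hjfw Gen.base hGTM]
    exact a_fwlin HdR HB hTc.toClosed hGTM Gen.base hTM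
  have hF : ∀ k, j (δ ^ p k) * j (e' k) ∈ V ^ m := by
    intro k
    have h1 : j (δ ^ p k * e' k) ∈
        ((fw HdR HB (S := Gen M) (W := M) Gen.base) ^ m).map j.toLinearMap := ⟨_, hpm k, rfl⟩
    rw [Submodule.map_pow, map_mul] at h1
    exact pow_le_pow_left' hle m h1
  refine ⟨fun n => Module.finrank QBar (cut_mul (j (e' k0)) (V ^ n)), fun n => ?_, fun n => ?_,
    fun N hN' n => ?_⟩
  · have h1 := ev_cut (e := j (e' k0)) ℂ (c.evAlg (Gen T)) (by rw [hjev]; exact hk0) (V ^ n)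
    rw [← hpowT n, hP, hpowT n] at h1
    exact h1
  · have h1 := cut_sum_le (fun k => j (e' k)) (fun k => by rw [← map_mul, he'.idem])
      (fun k l hkl => by rw [← map_mul, he'.orth k l hkl, map_zero]) (V ^ n) (V ^ m)
      (fun k => j (δ ^ p k)) (fun k => (hδ.pow (p k)).map j) hF
    have h2 : ∀ k ∈ Finset.univ, Module.finrank QBar (cut_mul (j (e' k)) (V ^ n)) =
        Module.finrank QBar (cut_mul (j (e' k0)) (V ^ n)) := by
      intro k _
      obtain ⟨τ, h3, h4⟩ := tower_perm j hj he he'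
        (fun τ => (V ^ n).map τ.toLinearMap = V ^ n) (fun i l => by
          obtain ⟨τ, τ', h1, h2, h3⟩ := hjtr i l
          refine ⟨τ, τ', h1, h2, ?_⟩
          rw [← hpowT]
          exact h3 _) k k0
      exact cut_mul_perm (V ^ n) τ h3 h4
    rw [Finset.sum_congr rfl h2, Finset.sum_const, Finset.card_univ, Fintype.card_fin,
      smul_eq_mul, ← pow_add, add_comm m n, ← hpowT (n + m), hN] at h1
    rw [hr']
    exact h1
  · exact cut_growth d_hilb (by rw [← map_mul, he'.idem]) V h1V2 N (by rw [hN Gen.base]; exact hN') n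

end Cats

end

end Pool.Agent.Lib.MP_ae0f86_nt
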