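import Pool.Agent.Lib.MP_ae0f86_nt.G.CubicSeq
import Pool.Agent.Lib.MP_ae0f86_nt.D.Final

/-!
# MP_ae0f86_nt : the density law along one sequence of cubics, and the amplification theorem

The final theorems, in terms of the readable definitions of `Periods.lean`, `Theory.lean`,
`Pairs.lean`, `Density.lean` and `Systems.lean`.
-/

open CategoryTheory CategoryTheory.Limits MvPolynomial Opposite MonoidalCategory Filter

universe w v u

namespace Pool.Agent.Lib.MP_ae0f86_nt

noncomputable section

attribute [local instance] CategoryTheory.Abelian.hasFiniteBiproducts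

section Seq2

variable {A : Type u} [Category.{v} A] [Abelian A] [Linear ℚ A] [MonoidalCategory A]
  [SymmetricCategory A] [RigidCategory A] {HdR : A ⥤ ModuleCat.{0} QBar}
  {HB : A ⥤ ModuleCat.{0} ℚ} [FibreFunctor HdR] [FibreFunctor HB] {T : ℕ → A} {n : ℕ → ℕ}

/-- The proportion `δ` is reached infinitely often if and only if all dimension formulas hold and
no torsor has more than `1 / δ` components. -/
theorem seq_delta (c : Comparison HdR HB) (h : Exhausting HB T n) (δ : ℝ) (hδ : 0 < δ) :
    (∃ᶠ k in atTop, δ * (Nf HB (tpow (T k) (n k)) : ℝ) ≤ Pf c (tpow (T k) (n k))) ↔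
      ∀ M : A, DimFormula c M ∧ δ * (ncomp HdR HB M : ℝ) ≤ 1 := by
  have hbdd : BddBelow (Set.range fun M : A => (1 : ℝ) / ncomp HdR HB M) :=
    ⟨0, by rintro _ ⟨M, rfl⟩; positivity⟩
  have hpos : ∀ k, (0 : ℝ) < Nf HB (tpow (T k) (n k)) := fun k => by
    exact_mod_cast Nf_pow_pos c _ (h.lin1 k) (n k)
  obtain ⟨hl1, hl2⟩ := seq_law c h
  constructor
  · intro hf
    have hf' : ∃ᶠ k in atTop, δ ≤ ratioPN c (tpow (T k) (n k)) := by
      refine hf.mono fun k hk => ?_
      rwa [ratioPN, le_div_iff₀ (hpos k)]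
    have hall : ∀ M : A, DimFormula c M := by
      by_contra hnot
      have h1 := (hl2 hnot).eventually (gt_mem_nhds hδ)
      obtain ⟨k, hk1, hk2⟩ := (hf'.and_eventually h1).exists
      linarith
    refine fun M => ⟨hall M, ?_⟩
    have h1 := hl1 hall
    have h2 : δ ≤ ⨅ M : A, (1 : ℝ) / ncomp HdR HB M := by
      by_contra hlt
      push Not at hlt
      obtain ⟨k, hk1, hk2⟩ := (hf'.and_eventually (h1.eventually (gt_mem_nhds hlt))).exists
      linarith
    have h3 := h2.trans (ciInf_le hbdd M)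
    have h4 : (0 : ℝ) < ncomp HdR HB M := by exact_mod_cast (ncomp_pos c M).1
    rwa [le_div_iff₀ h4] at h3
  · intro hall
    refine Frequently.of_forall fun k => ?_
    have h3 := ratio_lower c (T k) (h.lin1 k) (hall _).1 (n k)
    have h4 : (0 : ℝ) < ncomp HdR HB (T k) := by exact_mod_cast (ncomp_pos c (T k)).1
    have h5 : δ ≤ 1 / ncomp HdR HB (T k) := by
      rw [le_div_iff₀ h4]; exact (hall _).2
    rw [← le_div_iff₀ (hpos k)]
    exact h5.trans h3

end Seq2

section CubicFinal

variable {A : Type u} [Category.{v} A] [Abelian A] [Linear ℚ A] [MonoidalCategory A]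
  [MonoidalPreadditive A] [SymmetricCategory A] [RigidCategory A] {HdR : A ⥤ ModuleCat.{0} QBar}
  {HB : A ⥤ ModuleCat.{0} ℚ} [FibreFunctor HdR] [FibreFunctor HB]

theorem cubicSequence (c : Comparison HdR HB) (T : CohTheory QBar A) (hK : T.KunnethFormula)
    (X : ℕ → QSystem) (hX : ∀ k, (X k).Admissible)
    (hex : ∀ Y : QSystem, Y.Admissible → ∃ k, X k = Y) (n : ℕ → ℕ)
    (hn : Tendsto (fun k => (n k : ℝ) / (T.betti HB (QSystem.partialProd X k) : ℝ) ^ 2) atTop
      atTop)
    (V : ℕ → A) (hV : ∀ k, V k = T.cubicCoh ((QSystem.partialProd X k).power (n k))) :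
    ((∀ M : A, DimensionFormula c M) →
      Tendsto (fun k => (independent c (V k) : ℝ) / expected HB (V k)) atTop
        (nhds (⨅ M : A, (1 : ℝ) / components HdR HB M))) ∧
    ((∃ M : A, ¬ DimensionFormula c M) →
      Tendsto (fun k => (independent c (V k) : ℝ) / expected HB (V k)) atTop (nhds 0)) ∧
    (∀ δ : ℝ, 0 < δ → List.TFAE [
      ∀ M : A, DimensionFormula c M ∧ δ * (components HdR HB M : ℝ) ≤ 1,
      ∀ W : A, δ * (expected HB W : ℝ) ≤ independent c W,
      DensityForCubics T c δ,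
      ∃ᶠ k in atTop, δ * (expected HB (V k) : ℝ) ≤ independent c (V k)]) ∧
    List.TFAE [
      ∀ M : A, PeriodConjecture c M,
      ∀ k, independent c (V k) = expected HB (V k),
      ∃ δ : ℝ, 1 / 2 < δ ∧ ∃ᶠ k in atTop, δ * (expected HB (V k) : ℝ) ≤ independent c (V k)] := by
  have hE : Exhausting HB (fun k => T.tX (QSystem.partialProd X k)) (fun k => n k + 1) :=
    exhausting_systems T X hX hex n hn c
  have hnum : ∀ k, expected HB (V k) =
      Nf HB (tpow (T.tX (QSystem.partialProd X k)) (n k + 1)) ∧ independent c (V k) =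
      Pf c (tpow (T.tX (QSystem.partialProd X k)) (n k + 1)) := by
    intro k
    rw [hV k]
    exact cubic_power T c hK (partialProd_admissible hX k) (n k)
  have hnum1 := fun k => (hnum k).1
  have hnum2 := fun k => (hnum k).2
  obtain ⟨hl1, hl2⟩ := seq_law c hE
  obtain ⟨htf, -⟩ := seq_tfae c hE
  simp only [hnum1, hnum2]
  refine ⟨hl1, fun hnot => hl2 fun hall => ?_, fun δ hδ => ?_, ?_⟩
  · obtain ⟨M, hM⟩ := hnot
    exact hM (hall M)
  · have h1 := (cubicDensity c T hK).1 δ hδ
    have h2 := seq_delta c hE δ hδ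
    tfae_have 1 ↔ 2 := h1.out 0 1
    tfae_have 2 ↔ 3 := h1.out 1 2
    tfae_have 1 ↔ 4 := h2.symm
    tfae_finish
  · tfae_have 1 ↔ 2 := htf.out 0 2
    tfae_have 1 ↔ 3 := htf.out 0 1
    tfae_finish

end CubicFinal

section Amplification

variable {A : Type u} [Category.{v} A] [Abelian A] [Linear ℚ A] [MonoidalCategory A]
  [SymmetricCategory A] [RigidCategory A] {HdR : A ⥤ ModuleCat.{0} QBar}
  {HB : A ⥤ ModuleCat.{0} ℚ} [FibreFunctor HdR] [FibreFunctor HB]

theorem amplification (c : Comparison HdR HB) (U : A) :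
    (independent c U < expected HB U → ∀ W : A,
      2 * independent c (U ⊗ W) + expected HB W ≤ 2 * expected HB (U ⊗ W) ∧
        (ConnectedSpace (PrimeSpectrum (PerAlg HdR HB (Gen (U ⊞ W)))) →
          independent c (U ⊗ W) + expected HB W ≤ expected HB (U ⊗ W))) ∧
    (Lin U (𝟙_ A) → ∀ D : ℕ, expected HB U = D + 1 → ∀ n : ℕ, 1 ≤ n →
      ((n + 2 * D) * expected HB (tpow U n) < 2 * (n + D) * independent c (tpow U n) →
        independent c U = expected HB U) ∧
      (ConnectedSpace (PrimeSpectrum (PerAlg HdR HB (Gen U))) →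
        D * expected HB (tpow U n) < (n + D) * independent c (tpow U n) →
        independent c U = expected HB U)) := by
  constructor
  · intro hU W
    exact catalysis c U W hU
  · intro hU1 D hD n hn
    obtain ⟨m, rfl⟩ : ∃ m, n = m + 1 := ⟨n - 1, by omega⟩
    have hgc : S_genclosed (A := A) := a_genclosed
    have hgr := Nf_growth c U hU1 D hD.le m
    have hle := Pf_le_Nf c U
    have hcat : Pf c U < Nf HB U →
        2 * Pf c (tpow U (m + 1)) + Nf HB (tpow U m) ≤ 2 * Nf HB (tpow U (m + 1)) ∧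
        (ConnectedSpace (PrimeSpectrum (PerAlg HdR HB (Gen U))) →
          Pf c (tpow U (m + 1)) + Nf HB (tpow U m) ≤ Nf HB (tpow U (m + 1))) := by
      intro hlt
      have h2 : S_fwlin HdR HB := a_fwlin HdR HB
      have hcl : Closed (fun _ : A => True) := hgc.2.1.toClosed
      have hl := a_lincl (A := A)
      have e : U ⊗ tpow U m ≅ tpow U (m + 1) := β_ _ _
      have e1 : Lin (U ⊗ tpow U m) (tpow U (m + 1)) := (g_lin e).1
      have e2 : Lin (tpow U (m + 1)) (U ⊗ tpow U m) := (g_lin e).2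
      obtain ⟨a1, a2⟩ := a_lineqv c _ _ e1
      obtain ⟨a3, a4⟩ := a_lineqv c _ _ e2
      have b1 : Nf HB (U ⊗ tpow U m) = Nf HB (tpow U (m + 1)) := le_antisymm a3 a1
      have b2 : Pf c (U ⊗ tpow U m) = Pf c (tpow U (m + 1)) := le_antisymm a4 a2
      have h3 := catalysis c U (tpow U m) hlt
      rw [b1, b2] at h3
      refine ⟨h3.1, fun hc => h3.2 ?_⟩
      have hG : Gen (U ⊞ tpow U m) = Gen U := by
        funext N
        refine propext ⟨fun h => hgc.2.2.2 U (U ⊞ tpow U m) N ?_ h, fun h =>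
          hgc.2.2.2 (U ⊞ tpow U m) U N
            (Gen.sub (biprod.inl : U ⟶ U ⊞ tpow U m) Gen.base) h⟩
        exact Gen.sum Gen.base (genpow_mem U m)
      rw [hG]
      exact hc
    constructor
    · intro h
      by_contra hne
      have hlt : Pf c U < Nf HB U := lt_of_le_of_ne hle hne
      have h1 := (hcat hlt).1
      have h2 : ((m + 1 : ℕ) + 2 * D) * Nf HB (tpow U (m + 1)) <
          2 * ((m + 1 : ℕ) + D) * Pf c (tpow U (m + 1)) := h
      nlinarith
    · intro hc h
      by_contra hne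
      have hlt : Pf c U < Nf HB U := lt_of_le_of_ne hle hne
      have h1 := (hcat hlt).2 hc
      have h2 : D * Nf HB (tpow U (m + 1)) <
          ((m + 1 : ℕ) + D) * Pf c (tpow U (m + 1)) := h
      nlinarith

end Amplification

end

end Pool.Agent.Lib.MP_ae0f86_nt
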